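import Pool.Agent.H59.OP.Met

/-!
MP_6a7a6f_gt: the octonions are a composition algebra of dimension eight.
-/

namespace Pool.Agent.H59.OP

noncomputable section

open scoped RealInnerProductSpace Quaternion

/-- the Cayley-Dickson product `(a, b) (c, d) = (a c - d* b, d a + b c*)` -/
def omul (x y : Oct) : Oct :=
  WithLp.toLp 2 (x.fst * y.fst - star y.snd * x.snd, y.snd * x.fst + x.snd * star y.fst)

lemma omul_fst (x y : Oct) : (omul x y).fst = x.fst * y.fst - star y.snd * x.snd := rfl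
lemma omul_snd (x y : Oct) : (omul x y).snd = y.snd * x.fst + x.snd * star y.fst := rfl

lemma oct_ext {x y : Oct} (h1 : x.fst = y.fst) (h2 : x.snd = y.snd) : x = y := by
  apply (WithLp.equiv 2 _).injective
  exact Prod.ext h1 h2

lemma oct_norm_sq (x : Oct) : ‖x‖ ^ 2 = ‖x.fst‖ ^ 2 + ‖x.snd‖ ^ 2 :=
  WithLp.prod_norm_sq_eq_of_L2 x

lemma omul_norm_sq (x y : Oct) : ‖omul x y‖ ^ 2 = ‖x‖ ^ 2 * ‖y‖ ^ 2 := by
  rw [oct_norm_sq, oct_norm_sq, oct_norm_sq, omul_fst, omul_snd]
  have hq : ∀ q : ℍ[ℝ], ‖q‖ ^ 2 = q.re ^ 2 + q.imI ^ 2 + q.imJ ^ 2 + q.imK ^ 2 := fun q => by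
    rw [sq ‖q‖, ← Quaternion.normSq_eq_norm_mul_self, Quaternion.normSq_def']
  simp only [hq]
  simp only [Quaternion.re_sub, Quaternion.imI_sub, Quaternion.imJ_sub, Quaternion.imK_sub,
    Quaternion.re_add, Quaternion.imI_add, Quaternion.imJ_add, Quaternion.imK_add,
    Quaternion.re_mul, Quaternion.imI_mul, Quaternion.imJ_mul, Quaternion.imK_mul,
    Quaternion.re_star, Quaternion.imI_star, Quaternion.imJ_star, Quaternion.imK_star]
  ring

instance : CA Oct where
  ml := LinearMap.mk₂ ℝ omul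
    (fun x x' y => oct_ext
      (by simp only [omul_fst, WithLp.add_fst, WithLp.add_snd]; noncomm_ring)
      (by simp only [omul_snd, WithLp.add_fst, WithLp.add_snd]; noncomm_ring))
    (fun r x y => oct_ext
      (by simp only [omul_fst, WithLp.smul_fst, WithLp.smul_snd, smul_mul_assoc,
            mul_smul_comm, smul_sub])
      (by simp only [omul_snd, WithLp.smul_fst, WithLp.smul_snd, smul_mul_assoc,
            mul_smul_comm, smul_add]))
    (fun x y y' => oct_ext
      (by simp only [omul_fst, WithLp.add_fst, WithLp.add_snd, star_add]; noncomm_ring)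
      (by simp only [omul_snd, WithLp.add_fst, WithLp.add_snd, star_add]; noncomm_ring))
    (fun r x y => oct_ext
      (by simp only [omul_fst, WithLp.smul_fst, WithLp.smul_snd, smul_mul_assoc,
            mul_smul_comm, smul_sub, Quaternion.star_smul])
      (by simp only [omul_snd, WithLp.smul_fst, WithLp.smul_snd, smul_mul_assoc,
            mul_smul_comm, smul_add, Quaternion.star_smul]))
  e := WithLp.toLp 2 (1, 0)
  e_ml x := oct_ext (by simp [LinearMap.mk₂_apply, omul_fst]) (by simp [LinearMap.mk₂_apply, omul_snd])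
  ml_e x := oct_ext (by simp [LinearMap.mk₂_apply, omul_fst]) (by simp [LinearMap.mk₂_apply, omul_snd])
  norm_e := by
    have h : ‖(WithLp.toLp 2 (1, 0) : Oct)‖ ^ 2 = 1 := by
      rw [oct_norm_sq]
      change ‖(1 : ℍ[ℝ])‖ ^ 2 + ‖(0 : ℍ[ℝ])‖ ^ 2 = 1
      rw [norm_one, norm_zero]; norm_num
    have h0 := norm_nonneg (WithLp.toLp 2 (1, 0) : Oct)
    nlinarith
  norm_ml x y := by
    have h : ‖omul x y‖ ^ 2 = (‖x‖ * ‖y‖) ^ 2 := by rw [omul_norm_sq, mul_pow]
    exact (sq_eq_sq₀ (norm_nonneg _) (by positivity)).1 h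

lemma oct_mm (x y : Oct) : x * y = omul x y := rfl

lemma oct_one : one Oct = WithLp.toLp 2 (1, 0) := rfl

/-- conjugation of octonions -/
lemma oct_cj (x : Oct) : cj x = WithLp.toLp 2 (star x.fst, -x.snd) := by
  have h : ⟪x, one Oct⟫ = x.fst.re := by
    rw [oct_one, WithLp.prod_inner_apply]
    change ⟪x.fst, (1 : ℍ[ℝ])⟫ + ⟪x.snd, (0 : ℍ[ℝ])⟫ = _
    rw [inner_zero_right, Quaternion.inner_def]
    simp
  refine oct_ext ?_ ?_
  · change (2 * ⟪x, one Oct⟫) • (1 : ℍ[ℝ]) - x.fst = star x.fst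
    rw [h]
    ext <;> simp
    ring
  · change (2 * ⟪x, one Oct⟫) • (0 : ℍ[ℝ]) - x.snd = -x.snd
    rw [smul_zero, zero_sub]

lemma oct_finrank : Module.finrank ℝ Oct = 8 := by
  rw [(WithLp.linearEquiv 2 ℝ (ℍ[ℝ] × ℍ[ℝ])).finrank_eq, Module.finrank_prod,
    Quaternion.finrank_eq_four]

end

end Pool.Agent.H59.OP
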