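import Pool.Agent.H59.OP.Met

/-!
MP_6a7a6f_gt: the topology of the projective plane over a composition algebra.
-/

namespace Pool.Agent.H59.OP

noncomputable section

open scoped RealInnerProductSpace
open Filter Topology

variable {O : Type} [NormedAddCommGroup O] [InnerProductSpace ℝ O] [CA O]

/-- the product as a continuous bilinear map -/
def mlc (O : Type) [NormedAddCommGroup O] [InnerProductSpace ℝ O] [CA O] : O →L[ℝ] O →L[ℝ] O :=
  LinearMap.mkContinuous₂ CA.ml 1 (fun x y => by rw [one_mul]; exact (norm_mm x y).le)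

lemma mlc_apply (x y : O) : mlc O x y = x * y := rfl

lemma continuous_mm {T : Type} [TopologicalSpace T] {f g : T → O} (hf : Continuous f)
    (hg : Continuous g) : Continuous fun t => f t * g t := by
  have h : (fun t => f t * g t) = fun t => mlc O (f t) (g t) := rfl
  rw [h]
  exact ((mlc O).continuous.comp hf).clm_apply hg

lemma continuous_cj {T : Type} [TopologicalSpace T] {f : T → O} (hf : Continuous f) :
    Continuous fun t => cj (f t) := by
  unfold cj
  fun_prop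

lemma sub_sq_le (A B : P2 O) : 2 - 2 * tf A B ≤ 4 * dist A B ^ 2 := by
  have h1 := sin_dd_sq A B
  have h2 : |Real.sin (dd A B)| ≤ |dd A B| := Real.abs_sin_le_abs
  have h3 : Real.sin (dd A B) ^ 2 ≤ dd A B ^ 2 := sq_le_sq.2 h2
  rw [dist_def]
  nlinarith [sq_nonneg (dd A B)]

lemma coord_le {A B : P2 O} {t : ℝ} (h0 : 0 ≤ t) (h : t ^ 2 ≤ 2 - 2 * tf A B) :
    t ≤ (2 : NNReal) * dist A B := by
  have h1 := h.trans (sub_sq_le A B)
  have h2 : t ^ 2 ≤ (2 * dist A B) ^ 2 := by rw [mul_pow]; norm_num; exact h1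
  have h3 := (sq_le_sq₀ h0 (by positivity)).1 h2
  exact_mod_cast h3

lemma cont_a : Continuous (fun A : P2 O => A.a) :=
  (LipschitzWith.of_dist_le_mul (K := 2) fun A B => by
    rw [Real.dist_eq]
    refine coord_le (abs_nonneg _) ?_
    have := sub_sq A B
    rw [sq_abs]
    nlinarith [sq_nonneg (A.a - B.a), sq_nonneg (A.b - B.b), sq_nonneg (A.c - B.c),
      sq_nonneg ‖A.x - B.x‖, sq_nonneg ‖A.y - B.y‖, sq_nonneg ‖A.z - B.z‖]).continuous

lemma cont_b : Continuous (fun A : P2 O => A.b) :=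
  (LipschitzWith.of_dist_le_mul (K := 2) fun A B => by
    rw [Real.dist_eq]
    refine coord_le (abs_nonneg _) ?_
    have := sub_sq A B
    rw [sq_abs]
    nlinarith [sq_nonneg (A.a - B.a), sq_nonneg (A.b - B.b), sq_nonneg (A.c - B.c),
      sq_nonneg ‖A.x - B.x‖, sq_nonneg ‖A.y - B.y‖, sq_nonneg ‖A.z - B.z‖]).continuous

lemma cont_c : Continuous (fun A : P2 O => A.c) :=
  (LipschitzWith.of_dist_le_mul (K := 2) fun A B => by
    rw [Real.dist_eq]
    refine coord_le (abs_nonneg _) ?_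
    have := sub_sq A B
    rw [sq_abs]
    nlinarith [sq_nonneg (A.a - B.a), sq_nonneg (A.b - B.b), sq_nonneg (A.c - B.c),
      sq_nonneg ‖A.x - B.x‖, sq_nonneg ‖A.y - B.y‖, sq_nonneg ‖A.z - B.z‖]).continuous

lemma cont_x : Continuous (fun A : P2 O => A.x) :=
  (LipschitzWith.of_dist_le_mul (K := 2) fun A B => by
    rw [dist_eq_norm]
    refine coord_le (norm_nonneg _) ?_
    have := sub_sq A B
    nlinarith [sq_nonneg (A.a - B.a), sq_nonneg (A.b - B.b), sq_nonneg (A.c - B.c),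
      sq_nonneg ‖A.x - B.x‖, sq_nonneg ‖A.y - B.y‖, sq_nonneg ‖A.z - B.z‖]).continuous

lemma cont_y : Continuous (fun A : P2 O => A.y) :=
  (LipschitzWith.of_dist_le_mul (K := 2) fun A B => by
    rw [dist_eq_norm]
    refine coord_le (norm_nonneg _) ?_
    have := sub_sq A B
    nlinarith [sq_nonneg (A.a - B.a), sq_nonneg (A.b - B.b), sq_nonneg (A.c - B.c),
      sq_nonneg ‖A.x - B.x‖, sq_nonneg ‖A.y - B.y‖, sq_nonneg ‖A.z - B.z‖]).continuous

lemma cont_z : Continuous (fun A : P2 O => A.z) :=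
  (LipschitzWith.of_dist_le_mul (K := 2) fun A B => by
    rw [dist_eq_norm]
    refine coord_le (norm_nonneg _) ?_
    have := sub_sq A B
    nlinarith [sq_nonneg (A.a - B.a), sq_nonneg (A.b - B.b), sq_nonneg (A.c - B.c),
      sq_nonneg ‖A.x - B.x‖, sq_nonneg ‖A.y - B.y‖, sq_nonneg ‖A.z - B.z‖]).continuous

/-- a map into the plane is continuous if its coordinates are -/
lemma continuous_P2 {T : Type} [TopologicalSpace T] {f : T → P2 O}
    (ha : Continuous fun t => (f t).a) (hb : Continuous fun t => (f t).b)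
    (hc : Continuous fun t => (f t).c) (hx : Continuous fun t => (f t).x)
    (hy : Continuous fun t => (f t).y) (hz : Continuous fun t => (f t).z) : Continuous f := by
  rw [continuous_iff_continuousAt]
  intro t₀
  rw [ContinuousAt, tendsto_iff_dist_tendsto_zero]
  have h1 : Continuous fun t => dist (f t) (f t₀) := by
    have h2 : (fun t => dist (f t) (f t₀)) =
        fun t => Real.arccos (Real.sqrt ((f t).a * (f t₀).a + (f t).b * (f t₀).b +
          (f t).c * (f t₀).c + 2 * ⟪(f t).x, (f t₀).x⟫ + 2 * ⟪(f t).y, (f t₀).y⟫ +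
          2 * ⟪(f t).z, (f t₀).z⟫)) := rfl
    rw [h2]
    refine Real.continuous_arccos.comp (Real.continuous_sqrt.comp ?_)
    fun_prop
  have h3 := h1.tendsto t₀
  rwa [dist_self] at h3

lemma continuous_sw : Continuous (sw : P2 O → P2 O) :=
  continuous_P2 cont_a cont_c cont_b cont_y cont_x (continuous_cj cont_z)

lemma dist_sw (A B : P2 O) : dist (sw A) (sw B) = dist A B := by
  rw [dist_def, dist_def, dd, dd, tf_sw]

lemma sw_sw (A : P2 O) : sw (sw A) = A := by
  apply P2.ext <;> simp [sw, mkP]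

lemma sw_bp : sw (bp O) = bp O := by
  apply P2.ext <;> simp [sw, mkP, bp]

/-- the equations of the plane -/
def KK (O : Type) [NormedAddCommGroup O] [InnerProductSpace ℝ O] [CA O] :
    Set (ℝ × ℝ × ℝ × O × O × O) :=
  {p | (p.1 + p.2.1 + p.2.2.1 = 1 ∧ p.1 * p.1 + ‖p.2.2.2.1‖ ^ 2 + ‖p.2.2.2.2.1‖ ^ 2 = p.1) ∧
    (‖p.2.2.2.1‖ ^ 2 + p.2.1 * p.2.1 + ‖p.2.2.2.2.2‖ ^ 2 = p.2.1 ∧
      ‖p.2.2.2.2.1‖ ^ 2 + ‖p.2.2.2.2.2‖ ^ 2 + p.2.2.1 * p.2.2.1 = p.2.2.1) ∧
    (p.1 • p.2.2.2.1 + p.2.1 • p.2.2.2.1 + p.2.2.2.2.1 * cj p.2.2.2.2.2 = p.2.2.2.1 ∧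
      p.1 • p.2.2.2.2.1 + p.2.2.2.1 * p.2.2.2.2.2 + p.2.2.1 • p.2.2.2.2.1 = p.2.2.2.2.1) ∧
    cj p.2.2.2.1 * p.2.2.2.2.1 + p.2.1 • p.2.2.2.2.2 + p.2.2.1 • p.2.2.2.2.2 = p.2.2.2.2.2}

/-- the point with the given coordinates -/
def ofK (p : KK O) : P2 O :=
  ⟨p.1.1, p.1.2.1, p.1.2.2.1, p.1.2.2.2.1, p.1.2.2.2.2.1, p.1.2.2.2.2.2, p.2.1.1, p.2.1.2,
    p.2.2.1.1, p.2.2.1.2, p.2.2.2.1.1, p.2.2.2.1.2, p.2.2.2.2⟩

lemma continuous_ofK : Continuous (ofK : KK O → P2 O) := by
  refine continuous_P2 ?_ ?_ ?_ ?_ ?_ ?_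
  · change Continuous fun t : KK O => t.1.1
    fun_prop
  · change Continuous fun t : KK O => t.1.2.1
    fun_prop
  · change Continuous fun t : KK O => t.1.2.2.1
    fun_prop
  · change Continuous fun t : KK O => t.1.2.2.2.1
    fun_prop
  · change Continuous fun t : KK O => t.1.2.2.2.2.1
    fun_prop
  · change Continuous fun t : KK O => t.1.2.2.2.2.2
    fun_prop

lemma ofK_surj : Function.Surjective (ofK : KK O → P2 O) := fun A =>
  ⟨⟨(A.a, A.b, A.c, A.x, A.y, A.z), ⟨A.tr, A.h11⟩, ⟨A.h22, A.h33⟩, ⟨A.h12, A.h13⟩, A.h23⟩, rfl⟩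

lemma isClosed_KK : IsClosed (KK O) := by
  unfold KK
  have h1 : Continuous fun p : ℝ × ℝ × ℝ × O × O × O => p.2.2.2.1 := by fun_prop
  have h2 : Continuous fun p : ℝ × ℝ × ℝ × O × O × O => p.2.2.2.2.1 := by fun_prop
  have h3 : Continuous fun p : ℝ × ℝ × ℝ × O × O × O => p.2.2.2.2.2 := by fun_prop
  have m1 := continuous_mm h2 (continuous_cj h3)
  have m2 := continuous_mm h1 h3
  have m3 := continuous_mm (continuous_cj h1) h2
  refine (IsClosed.and ?_ ?_).and ((IsClosed.and ?_ ?_).and ((IsClosed.and ?_ ?_).and ?_))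
  all_goals exact isClosed_eq (by fun_prop) (by fun_prop)

lemma coord_bound (A : P2 O) : (|A.a| ≤ 1 ∧ |A.b| ≤ 1 ∧ |A.c| ≤ 1) ∧ ‖A.x‖ ≤ 1 ∧ ‖A.y‖ ≤ 1 ∧
    ‖A.z‖ ≤ 1 := by
  obtain ⟨ha, hb, hc⟩ := A.nonneg
  have ht := A.tr
  have h1 := A.nx
  have h2 := A.ny
  have h3 := A.nz
  have k1 : A.a * A.b ≤ 1 := by nlinarith
  have k2 : A.a * A.c ≤ 1 := by nlinarith
  have k3 : A.b * A.c ≤ 1 := by nlinarith
  refine ⟨⟨?_, ?_, ?_⟩, ?_, ?_, ?_⟩
  · rw [abs_of_nonneg ha]; linarith
  · rw [abs_of_nonneg hb]; linarith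
  · rw [abs_of_nonneg hc]; linarith
  · nlinarith [norm_nonneg A.x]
  · nlinarith [norm_nonneg A.y]
  · nlinarith [norm_nonneg A.z]

lemma isCompact_KK [FiniteDimensional ℝ O] : IsCompact (KK O) := by
  have : ProperSpace O := FiniteDimensional.proper_real O
  refine Metric.isCompact_of_isClosed_isBounded isClosed_KK ?_
  rw [isBounded_iff_forall_norm_le]
  refine ⟨1, fun p hp => ?_⟩
  obtain ⟨⟨h1, h2, h3⟩, h4, h5, h6⟩ := coord_bound (ofK ⟨p, hp⟩)
  rw [Prod.norm_def, Prod.norm_def, Prod.norm_def, Prod.norm_def, Prod.norm_def]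
  simp only [sup_le_iff]
  exact ⟨h1, h2, h3, h4, h5, h6⟩

instance compactP2 [FiniteDimensional ℝ O] : CompactSpace (P2 O) := by
  have h : CompactSpace (KK O) := isCompact_iff_compactSpace.1 isCompact_KK
  rw [← isCompact_univ_iff, ← (ofK_surj (O := O)).range_eq]
  exact isCompact_range continuous_ofK

lemma dist_le (A B : P2 O) : dist A B ≤ Real.pi / 2 := dd_le_pi_div_two A B

instance boundedP2 : BoundedSpace (P2 O) where
  bounded_univ := by
    rw [Metric.isBounded_iff]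
    exact ⟨Real.pi / 2, fun A _ B _ => dist_le A B⟩

/-- the unit elements -/
abbrev US (O : Type) [NormedAddCommGroup O] : Type := {q : O // ‖q‖ = 1}

instance compactUS [FiniteDimensional ℝ O] : CompactSpace (US O) := by
  have : ProperSpace O := FiniteDimensional.proper_real O
  have h : IsCompact {q : O | ‖q‖ = 1} := by
    have h1 := isCompact_sphere (0 : O) 1
    have h2 : Metric.sphere (0 : O) 1 = {q : O | ‖q‖ = 1} := by
      ext q
      simp
    rwa [h2] at h1
  exact isCompact_iff_compactSpace.1 h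

/-- the half of the plane on which the third diagonal entry is not larger than the second -/
abbrev HP (O : Type) [NormedAddCommGroup O] [InnerProductSpace ℝ O] [CA O] : Type :=
  {A : P2 O // A.c ≤ A.b}

instance compactHP [FiniteDimensional ℝ O] : CompactSpace (HP O) := by
  have h : IsClosed {A : P2 O | A.c ≤ A.b} := isClosed_le cont_c cont_b
  exact isCompact_iff_compactSpace.1 h.isCompact

/-- the diameter -/
lemma diam_P2 : Metric.diam (Set.univ : Set (P2 O)) = Real.pi / 2 := by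
  have hpi := Real.pi_pos
  apply le_antisymm
  · exact Metric.diam_le_of_forall_dist_le (by positivity) fun A _ B _ => dist_le A B
  · let B : P2 O := mkP 0 1 0 0 0 0 (by norm_num) (by simp) (by simp) (by simp) (by simp)
      (by simp) (by simp)
    have h : dist (bp O) B = Real.pi / 2 := by
      change Real.arccos (Real.sqrt (tf (bp O) B)) = Real.pi / 2
      have : tf (bp O) B = 0 := by simp [tf, bp, B, mkP]
      rw [this, Real.sqrt_zero, Real.arccos_zero]
    rw [← h]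
    exact Metric.dist_le_diam_of_mem (BoundedSpace.bounded_univ) (Set.mem_univ _) (Set.mem_univ _)

end

end Pool.Agent.H59.OP
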