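import Pool.Agent.H59.OP.Main
import Pool.Agent.H59.OP.Oct
import Pool.Agent.H48.FR.All
import Pool.Agent.H48.FR.St

/-!
MP_6a7a6f_gt: the filling radius of the Cayley plane, conclusion.
-/

namespace Pool.Agent.H59.OP

noncomputable section

open Pool.Agent.H48.FR

/-- the Cayley plane: the idempotents of trace one of the Albert algebra of Hermitian `3 × 3`
matrices over the octonions `Oct`, with the distance `arccos (sqrt (trace (A ∘ B)))` -/
def OP2 : Type := P2 Oct

instance instOP2 : MetricSpace OP2 := inferInstanceAs (MetricSpace (P2 Oct))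

instance instOP2b : BoundedSpace OP2 := inferInstanceAs (BoundedSpace (P2 Oct))

instance finOct : FiniteDimensional ℝ Oct :=
  Module.finite_of_finrank_pos (by rw [oct_finrank]; norm_num)

/-- the Kuratowski map of the projective plane over a composition algebra of dimension at least
five is null-homotopic in the neighbourhoods of radius larger than `rad 1` -/
theorem nullhomotopic_P2 {O : Type} [NormedAddCommGroup O] [InnerProductSpace ℝ O] [CA O]
    [FiniteDimensional ℝ O] (hd : 5 ≤ Module.finrank ℝ O) {ε : ℝ} (hε : 0 < ε)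
    (hlt : rad 1 < ε) : (kurU (P2 O) ε hε).Nullhomotopic := by
  have hpi := Real.pi_pos
  obtain ⟨h1, h2⟩ := rad_pos_lt (m := 1) le_rfl
  have hmin : 2 * rad 1 < min (2 * ε) (Real.pi / 2) := lt_min (by linarith) (by linarith)
  obtain ⟨Δ, hΔ⟩ := co_op hd Pool.Agent.H69.FR.rz Pool.Agent.H50.FR.pa
    (r := (2 * rad 1 + min (2 * ε) (Real.pi / 2)) / 2) (by linarith)
    (by have := min_le_right (2 * ε) (Real.pi / 2); linarith)
  have hne : Nonempty (US O) := ⟨⟨one O, norm_one'⟩⟩
  refine (Pool.Agent.H48.FRAB.ab Pool.Agent.H33.FR.pf_TH Pool.Agent.H33.FR.pf_HO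
      Pool.Agent.H48.FRCP.cp) (P2 O) (HP O × Bool) (US O) Δ ε hε ?_
  rw [hΔ]
  have := min_le_left (2 * ε) (Real.pi / 2)
  linarith

theorem nullhomotopic_OP2 (ε : ℝ) (hε : 0 < ε) (hlt : Real.arccos (-(1 / 3)) / 4 < ε) :
    (kc OP2 ε hε).Nullhomotopic := by
  rw [← rad_one] at hlt
  exact nullhomotopic_P2 (O := Oct) (by rw [oct_finrank]; norm_num) hε hlt

theorem fillR_OP2 : FillR OP2 16 ≤ Real.arccos (-(1 / 3)) / 4 := by
  refine fillRad_le (M := OP2) fun ε hlt => ?_
  have h0 := (rad_pos_lt (m := 1) le_rfl).1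
  rw [rad_one] at h0
  have hε : 0 < ε := h0.trans hlt
  exact bounds_of_nullhomotopic (by norm_num) hε (nullhomotopic_OP2 ε hε hlt)

theorem diam_OP2 : Metric.diam (Set.univ : Set OP2) = Real.pi / 2 := diam_P2 (O := Oct)

end

end Pool.Agent.H59.OP
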