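import Pool.Agent.H48.FR.Targets

/-!
MP_6a7a6f_gt: cubic functions on the unit sphere of a real inner product space which select a
small set of points.
-/

namespace Pool.Agent.H59.OP

noncomputable section

open scoped RealInnerProductSpace
open Pool.Agent.H48.FR (tp T_RZ)

variable {V : Type} [NormedAddCommGroup V] [InnerProductSpace ℝ V]

/-- the cubic part -/
def cu (v : Fin 4 → V) (q : V) : ℝ := ⟪q, v 0⟫ * ⟪q, v 1⟫ * ⟪q, v 2⟫ + ⟪q, v 3⟫ ^ 3

/-- the selecting function -/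
def fu (l : V) (v : Fin 4 → V) (s : ℝ) (q : V) : ℝ := (1 - s) * ⟪q, l⟫ + s * cu v q

lemma cu_neg (v : Fin 4 → V) (q : V) : cu v (-q) = -cu v q := by
  unfold cu
  simp only [inner_neg_left]
  ring

lemma fu_neg (l : V) (v : Fin 4 → V) (s : ℝ) (q : V) : fu l v s (-q) = -fu l v s q := by
  unfold fu
  rw [cu_neg, inner_neg_left]
  ring

lemma fu_tp (l : V) (v : Fin 4 → V) (s : ℝ) (q w : V) :
    ∃ c : ℕ → ℝ, ∀ θ : ℝ, fu l v s (Real.cos θ • q + Real.sin θ • w) = tp 3 c θ := by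
  refine ⟨fun k => if k = 0 then (1 - s) * ⟪q, l⟫ + s * (⟪q, v 0⟫ * ⟪q, v 1⟫ * ⟪q, v 2⟫ +
      ⟪q, v 3⟫ ^ 3)
    else if k = 1 then (1 - s) * ⟪w, l⟫ + s * (⟪w, v 0⟫ * ⟪q, v 1⟫ * ⟪q, v 2⟫ +
      ⟪q, v 0⟫ * ⟪w, v 1⟫ * ⟪q, v 2⟫ + ⟪q, v 0⟫ * ⟪q, v 1⟫ * ⟪w, v 2⟫ +
      3 * ⟪q, v 3⟫ ^ 2 * ⟪w, v 3⟫)
    else if k = 2 then (1 - s) * ⟪q, l⟫ + s * (⟪w, v 0⟫ * ⟪w, v 1⟫ * ⟪q, v 2⟫ +
      ⟪q, v 0⟫ * ⟪w, v 1⟫ * ⟪w, v 2⟫ + ⟪w, v 0⟫ * ⟪q, v 1⟫ * ⟪w, v 2⟫ +
      3 * ⟪q, v 3⟫ * ⟪w, v 3⟫ ^ 2)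
    else (1 - s) * ⟪w, l⟫ + s * (⟪w, v 0⟫ * ⟪w, v 1⟫ * ⟪w, v 2⟫ +
      ⟪w, v 3⟫ ^ 3), fun θ => ?_⟩
  have h1 := Real.sin_sq_add_cos_sq θ
  unfold fu cu tp
  simp only [inner_add_left, real_inner_smul_left, Finset.sum_range_succ, Finset.sum_range_zero]
  norm_num
  set C := Real.cos θ
  set S := Real.sin θ
  linear_combination (-(1 - s) * (C * ⟪q, l⟫ + S * ⟪w, l⟫)) * h1

/-- two points of maximum of `fu l v s` have an angle of at most `2 π / 3` -/
theorem fu_far (hRZ : T_RZ) (l : V) (v : Fin 4 → V) (s : ℝ) (q q' : V)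
    (hq : ‖q‖ = 1) (hq' : ‖q'‖ = 1)
    (hmax : ∀ a : V, ‖a‖ = 1 → fu l v s a ≤ fu l v s q)
    (hmax' : ∀ a : V, ‖a‖ = 1 → fu l v s a ≤ fu l v s q')
    (hpos : 0 < fu l v s q) : -Real.cos (Real.pi / (2 * (1 : ℕ) + 1)) ≤ ⟪q, q'⟫ := by
  by_contra hcon
  push Not at hcon
  have hM : fu l v s q' = fu l v s q := le_antisymm (hmax q' hq') (hmax' q hq)
  have hab : ∀ a : V, ‖a‖ = 1 → |fu l v s a| ≤ fu l v s q := by
    intro a ha
    rw [abs_le]
    refine ⟨?_, hmax a ha⟩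
    have h1 := hmax (-a) (by rw [norm_neg]; exact ha)
    rw [fu_neg] at h1
    linarith
  set u : V := -q' with hu
  have hun : ‖u‖ = 1 := by rw [hu, norm_neg]; exact hq'
  have hFu : fu l v s u = -fu l v s q := by rw [hu, fu_neg, hM]
  set c : ℝ := ⟪q, u⟫ with hc
  have hc1 : c = -⟪q, q'⟫ := by rw [hc, hu, inner_neg_right]
  have hcabs : |c| ≤ 1 := by
    have := abs_real_inner_le_norm q u
    rwa [hq, hun, mul_one] at this
  have hcl := (abs_le.mp hcabs).1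
  have hcr := (abs_le.mp hcabs).2
  have hcgt : Real.cos (Real.pi / (2 * (1 : ℕ) + 1)) < c := by rw [hc1]; linarith
  set g : ℝ := Real.arccos c with hg
  have hcg : Real.cos g = c := Real.cos_arccos hcl hcr
  have hg0 : 0 ≤ g := Real.arccos_nonneg c
  have hgpi : g ≤ Real.pi := Real.arccos_le_pi c
  have hglt : g < Real.pi / (2 * (1 : ℕ) + 1) := by
    by_contra h1
    push Not at h1
    have h2 := Real.cos_le_cos_of_nonneg_of_le_pi (by positivity) hgpi h1
    rw [hcg] at h2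
    linarith
  have hqq : ⟪q, q⟫ = 1 := by rw [real_inner_self_eq_norm_sq, hq, one_pow]
  have huu : ⟪u, u⟫ = 1 := by rw [real_inner_self_eq_norm_sq, hun, one_pow]
  have hgpos : 0 < g := by
    rcases hg0.lt_or_eq with h1 | h1
    · exact h1
    · exfalso
      have h2 : c = 1 := by rw [← hcg, ← h1, Real.cos_zero]
      have h3 : ‖q - u‖ ^ 2 = 0 := by
        rw [norm_sub_sq_real, hq, hun, ← hc, h2]; norm_num
      have h5 : q = u := by
        rw [sq_eq_zero_iff, norm_eq_zero, sub_eq_zero] at h3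
        exact h3
      rw [← h5] at hFu
      linarith
  have hsin : 0 < Real.sin g := by
    apply Real.sin_pos_of_pos_of_lt_pi hgpos
    refine lt_of_lt_of_le hglt ?_
    apply div_le_self Real.pi_pos.le
    norm_num
  set w : V := (Real.sin g)⁻¹ • (u - Real.cos g • q) with hw
  have hsc := Real.sin_sq_add_cos_sq g
  have hqw : ⟪q, w⟫ = 0 := by
    rw [hw, real_inner_smul_right, inner_sub_right, real_inner_smul_right, ← hc, hqq, hcg]
    ring
  have hww : ⟪w, w⟫ = 1 := by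
    have h1 : ⟪u - Real.cos g • q, u - Real.cos g • q⟫ = Real.sin g ^ 2 := by
      rw [inner_sub_left, inner_sub_right, inner_sub_right, real_inner_smul_right,
        real_inner_smul_left, real_inner_smul_left, real_inner_smul_right, huu, hqq,
        real_inner_comm q u, ← hc, hcg]
      rw [hcg] at hsc
      linarith
    rw [hw, real_inner_smul_left, real_inner_smul_right, h1]
    field_simp
  have hag : Real.cos g • q + Real.sin g • w = u := by
    rw [hw, smul_smul, mul_inv_cancel₀ hsin.ne', one_smul]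
    abel
  clear_value w
  have hat : ∀ t : ℝ, ‖Real.cos t • q + Real.sin t • w‖ = 1 := by
    intro t
    have h1 : ‖Real.cos t • q + Real.sin t • w‖ ^ 2 = 1 := by
      have hwq : ⟪w, q⟫ = 0 := by rw [real_inner_comm]; exact hqw
      rw [← real_inner_self_eq_norm_sq, inner_add_left, inner_add_right, inner_add_right,
        real_inner_smul_left, real_inner_smul_left, real_inner_smul_left, real_inner_smul_left,
        real_inner_smul_right, real_inner_smul_right, real_inner_smul_right,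
        real_inner_smul_right, hqq, hww, hwq, hqw]
      have := Real.sin_sq_add_cos_sq t
      linarith
    have h2 : ‖Real.cos t • q + Real.sin t • w‖ ^ 2 = 1 ^ 2 := by rw [h1, one_pow]
    exact (sq_eq_sq₀ (norm_nonneg _) zero_le_one).mp h2
  have ha0 : Real.cos 0 • q + Real.sin 0 • w = q := by
    rw [Real.cos_zero, Real.sin_zero, one_smul, zero_smul, add_zero]
  obtain ⟨cc, hcc⟩ := fu_tp l v s q w
  refine hRZ 3 cc (fu l v s q) g (by omega) hpos ?_ ?_ hgpos ?_ ?_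
  · intro θ
    rw [← hcc θ]
    exact hab _ (hat θ)
  · rw [← hcc 0, ha0]
  · push_cast
    push_cast at hglt
    norm_num at hglt ⊢
    exact hglt
  · rw [← hcc g, hag, hFu]

/-- a cubic function of this kind is not linear on the unit sphere -/
lemma cu_nonlin [FiniteDimensional ℝ V] (hd : 5 ≤ Module.finrank ℝ V) (v : Fin 4 → V) (b : V)
    (h01 : ⟪v 0, v 1⟫ = 0) (h02 : ⟪v 0, v 2⟫ = 0) (h12 : ⟪v 1, v 2⟫ = 0)
    (hne : v 3 ≠ 0 ∨ (v 0 ≠ 0 ∧ v 1 ≠ 0 ∧ v 2 ≠ 0)) :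
    ∃ q : V, ‖q‖ = 1 ∧ cu v q ≠ ⟪q, b⟫ := by
  by_contra hcon
  push Not at hcon
  -- a unit vector orthogonal to the four vectors
  obtain ⟨f, hf, hfv⟩ : ∃ f : V, ‖f‖ = 1 ∧ ∀ i, ⟪f, v i⟫ = 0 := by
    have h1 : Module.finrank ℝ (Submodule.span ℝ (Set.range v)) ≤ 4 := by
      have := finrank_range_le_card (R := ℝ) v
      simpa [Set.finrank] using this
    have h2 : (Submodule.span ℝ (Set.range v))ᗮ ≠ ⊥ := by
      intro h0
      have h3 := Submodule.finrank_add_finrank_orthogonal (Submodule.span ℝ (Set.range v))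
      rw [h0, finrank_bot] at h3
      omega
    obtain ⟨x, hx, hx0⟩ := Submodule.exists_mem_ne_zero_of_ne_bot h2
    have hn : ‖x‖ ≠ 0 := norm_ne_zero_iff.2 hx0
    refine ⟨(‖x‖)⁻¹ • x, ?_, fun i => ?_⟩
    · rw [norm_smul, norm_inv, norm_norm, inv_mul_cancel₀ hn]
    · rw [real_inner_smul_left, real_inner_comm,
        (Submodule.mem_orthogonal _ _).1 hx (v i) (Submodule.subset_span ⟨i, rfl⟩), mul_zero]
  have hff : ⟪f, f⟫ = 1 := by rw [real_inner_self_eq_norm_sq, hf, one_pow]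
  have hfb : ⟪f, b⟫ = 0 := by
    rw [← hcon f hf]
    simp [cu, hfv]
  -- the cubic vanishes on the orthogonal complement of `f`
  have hz1 : ∀ q : V, ‖q‖ = 1 → ⟪q, f⟫ = 0 → cu v q = 0 := by
    intro q hq hqf
    have h1 := hcon q hq
    have h2 : ‖(1 / 2 : ℝ) • q + (Real.sqrt 3 / 2) • f‖ = 1 := by
      have h3 : ‖(1 / 2 : ℝ) • q + (Real.sqrt 3 / 2) • f‖ ^ 2 = 1 := by
        rw [norm_add_sq_real, norm_smul, norm_smul, hq, hf, real_inner_smul_left,
          real_inner_smul_right, hqf, Real.norm_eq_abs, Real.norm_eq_abs, mul_one, mul_one,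
          sq_abs, sq_abs, div_pow, div_pow, Real.sq_sqrt (by norm_num)]
        norm_num
      have h4 : ‖(1 / 2 : ℝ) • q + (Real.sqrt 3 / 2) • f‖ ^ 2 = 1 ^ 2 := by rw [h3, one_pow]
      exact (sq_eq_sq₀ (norm_nonneg _) zero_le_one).mp h4
    have h5 := hcon _ h2
    have h6 : cu v ((1 / 2 : ℝ) • q + (Real.sqrt 3 / 2) • f) = cu v q / 8 := by
      unfold cu
      simp only [inner_add_left, real_inner_smul_left, hfv]
      ring
    rw [h6, inner_add_left, real_inner_smul_left, real_inner_smul_left, hfb] at h5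
    linarith
  have hz : ∀ q : V, ⟪q, f⟫ = 0 → cu v q = 0 := by
    intro q hqf
    by_cases hq0 : q = 0
    · rw [hq0]; simp [cu]
    · have hn : ‖q‖ ≠ 0 := norm_ne_zero_iff.2 hq0
      have h1 := hz1 ((‖q‖)⁻¹ • q) (by rw [norm_smul, norm_inv, norm_norm, inv_mul_cancel₀ hn])
        (by rw [real_inner_smul_left, hqf, mul_zero])
      have h2 : cu v ((‖q‖)⁻¹ • q) = (‖q‖)⁻¹ ^ 3 * cu v q := by
        unfold cu
        simp only [real_inner_smul_left]
        ring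
      rw [h2] at h1
      rcases mul_eq_zero.1 h1 with h3 | h3
      · exact absurd (pow_eq_zero_iff (by norm_num) |>.1 h3) (inv_ne_zero hn)
      · exact h3
  have hvf : ∀ i, ⟪v i, f⟫ = 0 := fun i => by rw [real_inner_comm]; exact hfv i
  have e0 : ⟪v 0, v 3⟫ = 0 := by
    have h := hz (v 0) (hvf 0)
    unfold cu at h
    rw [h01] at h
    have h' : ⟪v 0, v 3⟫ ^ 3 = 0 := by linarith
    exact pow_eq_zero_iff (by norm_num) |>.1 h'
  have e3 : v 3 = 0 := by
    have h := hz (v 3) (hvf 3)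
    unfold cu at h
    rw [real_inner_comm (v 0) (v 3), e0, real_inner_self_eq_norm_sq] at h
    have h' : ‖v 3‖ ^ 6 = 0 := by nlinarith
    exact norm_eq_zero.1 (pow_eq_zero_iff (by norm_num) |>.1 h')
  rcases hne with h | ⟨n0, n1, n2⟩
  · exact h e3
  · have h := hz (v 0 + v 1 + v 2) (by
      rw [inner_add_left, inner_add_left, hvf, hvf, hvf]; norm_num)
    unfold cu at h
    rw [e3] at h
    simp only [inner_add_left, inner_zero_right] at h
    rw [real_inner_comm (v 0) (v 1), real_inner_comm (v 0) (v 2), real_inner_comm (v 1) (v 2),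
      h01, h02, h12, real_inner_self_eq_norm_sq, real_inner_self_eq_norm_sq,
      real_inner_self_eq_norm_sq] at h
    have p0 : 0 < ‖v 0‖ := norm_pos_iff.2 n0
    have p1 : 0 < ‖v 1‖ := norm_pos_iff.2 n1
    have p2 : 0 < ‖v 2‖ := norm_pos_iff.2 n2
    have : 0 < ‖v 0‖ ^ 2 * ‖v 1‖ ^ 2 * ‖v 2‖ ^ 2 := by positivity
    nlinarith

/-- a positive value of `fu l v s` -/
lemma fu_pos [FiniteDimensional ℝ V] (hd : 5 ≤ Module.finrank ℝ V) (l : V) (v : Fin 4 → V)
    (s : ℝ) (h01 : ⟪v 0, v 1⟫ = 0) (h02 : ⟪v 0, v 2⟫ = 0) (h12 : ⟪v 1, v 2⟫ = 0)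
    (hne : v 3 ≠ 0 ∨ (v 0 ≠ 0 ∧ v 1 ≠ 0 ∧ v 2 ≠ 0)) (hs0 : 0 ≤ s) (hl : s = 0 → l ≠ 0) :
    ∃ q : V, ‖q‖ = 1 ∧ 0 < fu l v s q := by
  rcases hs0.eq_or_lt with hs | hs
  · have hl0 := hl hs.symm
    have hn : ‖l‖ ≠ 0 := norm_ne_zero_iff.2 hl0
    refine ⟨(‖l‖)⁻¹ • l, by rw [norm_smul, norm_inv, norm_norm, inv_mul_cancel₀ hn], ?_⟩
    unfold fu
    rw [← hs, sub_zero, one_mul, zero_mul, add_zero, real_inner_smul_left,
      real_inner_self_eq_norm_sq]
    have : 0 < ‖l‖ := norm_pos_iff.2 hl0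
    positivity
  · obtain ⟨q, hq, hne'⟩ := cu_nonlin hd v ((-((1 - s) / s)) • l) h01 h02 h12 hne
    have h0 : fu l v s q ≠ 0 := by
      intro h0
      apply hne'
      unfold fu at h0
      rw [real_inner_smul_right]
      field_simp
      linarith
    rcases lt_or_gt_of_ne h0 with h1 | h1
    · refine ⟨-q, by rw [norm_neg]; exact hq, ?_⟩
      rw [fu_neg]
      linarith
    · exact ⟨q, hq, h1⟩

end

end Pool.Agent.H59.OP
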