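import Pool.Agent.H59.OP.Ring
import Pool.Agent.H59.OP.Cub
import Pool.Agent.H48.FR.FG

/-!
MP_6a7a6f_gt: the data of the contraction for the projective plane over a composition algebra of
dimension at least five.
-/

namespace Pool.Agent.H59.OP

noncomputable section

open scoped RealInnerProductSpace
open Filter Topology
open Pool.Agent.H48.FR (Dat IsMx T_RZ T_PA sg rad)

variable {O : Type} [NormedAddCommGroup O] [InnerProductSpace ℝ O] [CA O]

lemma cont_bif {T M : Type} [TopologicalSpace T] [TopologicalSpace M] {β : T → Bool} {f g : T → M}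
    (hβ : Continuous β) (hf : Continuous f) (hg : Continuous g) :
    Continuous fun t => bif β t then f t else g t := by
  rw [continuous_iff_continuousAt]
  intro t
  have h : ∀ᶠ t' in 𝓝 t, β t' = β t := by
    have h1 : {t' | β t' = β t} ∈ 𝓝 t :=
      ((isOpen_discrete {β t}).preimage hβ).mem_nhds rfl
    exact h1
  cases hb : β t
  · refine (hg.continuousAt (x := t)).congr ?_
    filter_upwards [h] with t' ht'
    rw [ht', hb]; rfl
  · refine (hf.continuousAt (x := t)).congr ?_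
    filter_upwards [h] with t' ht'
    rw [ht', hb]; rfl

/-- the projection of the two copies of the half onto the plane -/
def pr (X : HP O × Bool) : P2 O := bif X.2 then sw X.1.1 else X.1.1

lemma continuous_pr : Continuous (pr : HP O × Bool → P2 O) := by
  unfold pr
  exact cont_bif continuous_snd (continuous_sw.comp (by fun_prop)) (by fun_prop)

lemma pr_surj : Function.Surjective (pr : HP O × Bool → P2 O) := by
  intro A
  rcases le_total A.c A.b with h | h
  · exact ⟨(⟨A, h⟩, false), rfl⟩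
  · exact ⟨(⟨sw A, h⟩, true), sw_sw A⟩

lemma b_pos {X : HP O × Bool} (h : pr X ≠ bp O) : 0 < X.1.1.b := by
  by_contra hc
  push Not at hc
  obtain ⟨⟨A, hA⟩, β⟩ := X
  have hb : A.b = 0 := le_antisymm hc A.nonneg.2.1
  have hcc : A.c = 0 := le_antisymm (hb ▸ hA) A.nonneg.2.2
  have hAb := eq_bp hb hcc
  apply h
  cases β
  · exact hAb
  · change sw A = bp O
    rw [hAb, sw_bp]

/-- the vectors of the cubic function -/
def ve (e : Fin 3 → O) (A : P2 O) (β : Bool) : Fin 4 → O :=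
  ![bif β then ka A • (e 0 * cj A.z) else mu A • e 0,
    bif β then ka A • (e 1 * cj A.z) else mu A • e 1,
    bif β then ka A • (e 2 * cj A.z) else mu A • e 2,
    bif β then mu A • one O else ka A • cj A.z]

/-- the function which selects a part of the ring -/
def FF (e : Fin 3 → O) (X : HP O × Bool) (s : ℝ) (q : O) : ℝ :=
  fu (la X.1.1) (ve e X.1.1 X.2) s q

/-- the ring over a point -/
def yy (ρ : ℝ) (X : HP O × Bool) (q : US O) : P2 O :=
  if h : 0 < X.1.1.b then
    bif X.2 then sw (rg ρ X.1.1 h q.1 q.2) else rg ρ X.1.1 h q.1 q.2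
  else bp O

lemma norm_z {A : P2 O} (hbc : A.b = A.c) : ‖A.z‖ = A.b := by
  have h := A.nz
  rw [← hbc, ← sq] at h
  exact (sq_eq_sq₀ (norm_nonneg _) A.nonneg.2.1).1 h

lemma norm_q' {A : P2 O} (h : 0 < A.b) (hbc : A.b = A.c) {q : O} (hq : ‖q‖ = 1) :
    ‖(A.b)⁻¹ • (q * A.z)‖ = 1 := by
  rw [norm_smul, norm_mm, hq, one_mul, norm_z hbc, norm_inv, Real.norm_eq_abs, abs_of_pos h,
    inv_mul_cancel₀ h.ne']

lemma norm_q'' {A : P2 O} (h : 0 < A.b) (hbc : A.b = A.c) {q : O} (hq : ‖q‖ = 1) :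
    ‖(A.b)⁻¹ • (q * cj A.z)‖ = 1 := by
  rw [norm_smul, norm_mm, norm_cj, hq, one_mul, norm_z hbc, norm_inv, Real.norm_eq_abs,
    abs_of_pos h, inv_mul_cancel₀ h.ne']

lemma mu_sw {A : P2 O} (hbc : A.b = A.c) : mu (sw A) = mu A := by
  change Real.sqrt A.c / Real.sqrt (1 - A.a) = Real.sqrt A.b / Real.sqrt (1 - A.a)
  rw [hbc]

lemma ka_sw {A : P2 O} (hbc : A.b = A.c) : ka (sw A) = ka A := by
  change (Real.sqrt A.c * Real.sqrt (1 - A.a))⁻¹ = (Real.sqrt A.b * Real.sqrt (1 - A.a))⁻¹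
  rw [hbc]

lemma rg_inv (ρ : ℝ) {A : P2 O} (h : 0 < A.b) (h' : 0 < (sw A).b) (hbc : A.b = A.c) (q : O)
    (hq : ‖q‖ = 1) : rg ρ A h q hq =
      sw (rg ρ (sw A) h' ((A.b)⁻¹ • (q * A.z)) (norm_q' h hbc hq)) := by
  apply P2.ext
  · rfl
  · rfl
  · rfl
  · change (Real.cos ρ * Real.sin ρ * mu A) • q = (Real.cos ρ * Real.sin ρ * ka (sw A)) •
      (((A.b)⁻¹ • (q * A.z)) * cj A.z)
    rw [ka_sw hbc, smul_mm, mm_mm_cj, norm_z hbc, smul_smul, smul_smul, ← ka_b h]
    congr 1
    field_simp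
  · change (Real.cos ρ * Real.sin ρ * ka A) • (q * A.z) =
      (Real.cos ρ * Real.sin ρ * mu (sw A)) • ((A.b)⁻¹ • (q * A.z))
    rw [mu_sw hbc, smul_smul, ← ka_b h]
    congr 1
    field_simp
  · change (Real.sin ρ ^ 2 / (1 - A.a)) • A.z = cj ((Real.sin ρ ^ 2 / (1 - A.a)) • cj A.z)
    rw [cj_smul, cj_cj]

lemma la_inv {A : P2 O} (h : 0 < A.b) (hbc : A.b = A.c) (q : O) :
    ⟪(A.b)⁻¹ • (q * A.z), la (sw A)⟫ = ⟪q, la A⟫ := by
  change ⟪(A.b)⁻¹ • (q * A.z), (Real.sqrt (1 - A.a) / Real.sqrt A.c) • A.y⟫ =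
    ⟪q, (Real.sqrt (1 - A.a) / Real.sqrt A.b) • A.x⟫
  rw [← hbc, real_inner_smul_left, real_inner_smul_right, real_inner_smul_right, adj_right,
    A.yz, ← hbc, real_inner_smul_right]
  field_simp

lemma ve_inv (e : Fin 3 → O) {A : P2 O} (h : 0 < A.b) (hbc : A.b = A.c) (q : O) (i : Fin 4) :
    ⟪(A.b)⁻¹ • (q * A.z), ve e (sw A) true i⟫ = ⟪q, ve e A false i⟫ := by
  have key : ∀ j, ⟪(A.b)⁻¹ • (q * A.z), ka (sw A) • (e j * cj (sw A).z)⟫ =
      ⟪q, mu A • e j⟫ := by
    intro j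
    have hz : cj (sw A).z = A.z := cj_cj A.z
    rw [hz, ka_sw hbc, real_inner_smul_left, real_inner_smul_right, inner_mm_right,
      norm_z hbc, real_inner_smul_right, ← ka_b h]
    field_simp
  fin_cases i
  · exact key 0
  · exact key 1
  · exact key 2
  · change ⟪(A.b)⁻¹ • (q * A.z), mu (sw A) • one O⟫ = ⟪q, ka A • cj A.z⟫
    rw [mu_sw hbc, real_inner_smul_left, real_inner_smul_right, real_inner_smul_right,
      adj_right, one_mm, ← ka_b h]
    field_simp

omit [CA O] in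
lemma fu_congr {l l' : O} {v v' : Fin 4 → O} {s : ℝ} {q q' : O} (h : ⟪q', l'⟫ = ⟪q, l⟫)
    (hv : ∀ i, ⟪q', v' i⟫ = ⟪q, v i⟫) : fu l v s q = fu l' v' s q' := by
  unfold fu cu
  rw [h, hv, hv, hv, hv]

lemma fu_inv (e : Fin 3 → O) {A : P2 O} (h : 0 < A.b) (hbc : A.b = A.c) (s : ℝ) (q : O) :
    fu (la A) (ve e A false) s q = fu (la (sw A)) (ve e (sw A) true) s
      ((A.b)⁻¹ • (q * A.z)) :=
  fu_congr (la_inv h hbc q) (ve_inv e h hbc q)

lemma mu_zero {A : P2 O} (h : A.b = 0) : mu A = 0 := by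
  rw [mu, h, Real.sqrt_zero, zero_div]

lemma ka_zero {A : P2 O} (h : A.b = 0) : ka A = 0 := by
  rw [ka, h, Real.sqrt_zero, zero_mul, inv_zero]

lemma fu_zero (e : Fin 3 → O) {A : P2 O} (h : A.b = 0) (β : Bool) (s : ℝ) (q : O) :
    fu (la A) (ve e A β) s q = 0 := by
  have h1 : la A = 0 := by
    rw [la, h, Real.sqrt_zero, div_zero, zero_smul]
  have h2 : ∀ i, ve e A β i = 0 := by
    intro i
    fin_cases i <;> cases β <;> simp [ve, mu_zero h, ka_zero h]
  unfold fu cu
  rw [h1, h2, h2, h2, h2]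
  simp

lemma inv_ft (ρ : ℝ) (e : Fin 3 → O) {A : P2 O} (hA : A.c ≤ A.b) (hA' : (sw A).c ≤ (sw A).b) :
    (∀ q : US O, ∃ q' : US O, yy ρ (⟨A, hA⟩, false) q = yy ρ (⟨sw A, hA'⟩, true) q' ∧
      ∀ s, FF e (⟨A, hA⟩, false) s q.1 = FF e (⟨sw A, hA'⟩, true) s q'.1) ∧
    (∀ q' : US O, ∃ q : US O, yy ρ (⟨sw A, hA'⟩, true) q' = yy ρ (⟨A, hA⟩, false) q ∧
      ∀ s, FF e (⟨sw A, hA'⟩, true) s q'.1 = FF e (⟨A, hA⟩, false) s q.1) := by
  have hbc : A.b = A.c := le_antisymm hA' hA
  have hsb : (sw A).b = A.c := rfl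
  by_cases h : 0 < A.b
  · have h' : 0 < (sw A).b := by rw [hsb, ← hbc]; exact h
    have k : ∀ q : US O, yy ρ (⟨A, hA⟩, false) q =
        yy ρ (⟨sw A, hA'⟩, true) ⟨(A.b)⁻¹ • (q.1 * A.z), norm_q' h hbc q.2⟩ := by
      intro q
      unfold yy
      rw [dif_pos h, dif_pos h']
      exact rg_inv ρ h h' hbc q.1 q.2
    have k' : ∀ (q : US O) s, FF e (⟨A, hA⟩, false) s q.1 =
        FF e (⟨sw A, hA'⟩, true) s ((A.b)⁻¹ • (q.1 * A.z)) := fun q s =>
      fu_inv e h hbc s q.1
    refine ⟨fun q => ⟨⟨(A.b)⁻¹ • (q.1 * A.z), norm_q' h hbc q.2⟩, k q, k' q⟩, fun q' => ?_⟩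
    have hq : (A.b)⁻¹ • (((A.b)⁻¹ • (q'.1 * cj A.z)) * A.z) = q'.1 := by
      rw [smul_mm, mm_cj_mm', norm_z hbc, smul_smul, smul_smul]
      have : (A.b)⁻¹ * (A.b)⁻¹ * A.b ^ 2 = 1 := by field_simp
      rw [this, one_smul]
    refine ⟨⟨(A.b)⁻¹ • (q'.1 * cj A.z), norm_q'' h hbc q'.2⟩, ?_, fun s => ?_⟩
    · rw [k]
      congr 1
      exact Subtype.ext hq.symm
    · rw [k']
      congr 1
      exact hq.symm
  · have hb : A.b = 0 := le_antisymm (le_of_not_gt h) A.nonneg.2.1
    have hb' : (sw A).b = 0 := by rw [hsb, ← hbc]; exact hb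
    have h' : ¬ 0 < (sw A).b := by rw [hb']; exact lt_irrefl 0
    have k1 : ∀ q : US O, yy ρ (⟨A, hA⟩, false) q = bp O := fun q => dif_neg h
    have k2 : ∀ q : US O, yy ρ (⟨sw A, hA'⟩, true) q = bp O := fun q => dif_neg h'
    refine ⟨fun q => ⟨q, by rw [k1, k2], fun s => ?_⟩, fun q => ⟨q, by rw [k1, k2], fun s => ?_⟩⟩
    · exact (fu_zero e hb false s q.1).trans (fu_zero e hb' true s q.1).symm
    · exact (fu_zero e hb' true s q.1).trans (fu_zero e hb false s q.1).symm

lemma inv_all (ρ : ℝ) (e : Fin 3 → O) (X X' : HP O × Bool) (h : pr X = pr X') (q : US O) :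
    ∃ q' : US O, yy ρ X q = yy ρ X' q' ∧ ∀ s, FF e X s q.1 = FF e X' s q'.1 := by
  obtain ⟨⟨A, hA⟩, β⟩ := X
  obtain ⟨⟨A', hA'⟩, β'⟩ := X'
  cases β <;> cases β'
  · have h' : A = A' := h
    subst h'
    exact ⟨q, rfl, fun s => rfl⟩
  · have h' : A = sw A' := h
    have h'' : sw A = A' := by rw [h', sw_sw]
    subst h''
    exact (inv_ft ρ e hA hA').1 q
  · have h' : sw A = A' := h
    have h'' : A = sw A' := by rw [← h', sw_sw]
    subst h''
    exact (inv_ft ρ e hA' hA).2 q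
  · have h' : sw A = sw A' := h
    have h'' : A = A' := by rw [← sw_sw A, h', sw_sw]
    subst h''
    exact ⟨q, rfl, fun s => rfl⟩

/-! ### continuity -/

lemma cont_mu {T : Type} [TopologicalSpace T] {f : T → P2 O} (hf : Continuous f)
    (hb : ∀ t, 0 < (f t).b) : Continuous fun t => mu (f t) := by
  unfold mu
  have h1 : Continuous fun t => (f t).b := cont_b.comp hf
  have h2 : Continuous fun t => (f t).a := cont_a.comp hf
  exact (Real.continuous_sqrt.comp h1).div (Real.continuous_sqrt.comp (continuous_const.sub h2))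
    fun t => (Real.sqrt_pos.2 (one_sub_a_pos (hb t))).ne'

lemma cont_ka {T : Type} [TopologicalSpace T] {f : T → P2 O} (hf : Continuous f)
    (hb : ∀ t, 0 < (f t).b) : Continuous fun t => ka (f t) := by
  unfold ka
  have h1 : Continuous fun t => (f t).b := cont_b.comp hf
  have h2 : Continuous fun t => (f t).a := cont_a.comp hf
  refine Continuous.inv₀ ((Real.continuous_sqrt.comp h1).mul
    (Real.continuous_sqrt.comp (continuous_const.sub h2))) fun t => ?_
  exact (mul_pos (Real.sqrt_pos.2 (hb t)) (Real.sqrt_pos.2 (one_sub_a_pos (hb t)))).ne'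

lemma cont_la {T : Type} [TopologicalSpace T] {f : T → P2 O} (hf : Continuous f)
    (hb : ∀ t, 0 < (f t).b) : Continuous fun t => la (f t) := by
  unfold la
  have h1 : Continuous fun t => (f t).b := cont_b.comp hf
  have h2 : Continuous fun t => (f t).a := cont_a.comp hf
  refine Continuous.smul ((Real.continuous_sqrt.comp (continuous_const.sub h2)).div
    (Real.continuous_sqrt.comp h1) fun t => ?_) (cont_x.comp hf)
  exact (Real.sqrt_pos.2 (hb t)).ne'

lemma cont_rg (ρ : ℝ) {T : Type} [TopologicalSpace T] {f : T → P2 O} {g : T → US O}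
    (hf : Continuous f) (hb : ∀ t, 0 < (f t).b) (hg : Continuous g) :
    Continuous fun t => rg ρ (f t) (hb t) (g t).1 (g t).2 := by
  have h1 : Continuous fun t => (f t).a := cont_a.comp hf
  have h2 : Continuous fun t => (f t).b := cont_b.comp hf
  have h3 : Continuous fun t => (f t).c := cont_c.comp hf
  have h4 : Continuous fun t => (f t).z := cont_z.comp hf
  have h5 : ∀ t, 1 - (f t).a ≠ 0 := fun t => (one_sub_a_pos (hb t)).ne'
  have h6 : Continuous fun t => (g t).1 := continuous_subtype_val.comp hg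
  refine continuous_P2 ?_ ?_ ?_ ?_ ?_ ?_
  · exact continuous_const
  · exact continuous_const.mul (h2.div (continuous_const.sub h1) h5)
  · exact continuous_const.mul (h3.div (continuous_const.sub h1) h5)
  · exact (continuous_const.mul (cont_mu hf hb)).smul h6
  · exact (continuous_const.mul (cont_ka hf hb)).smul (continuous_mm h6 h4)
  · exact (continuous_const.div (continuous_const.sub h1) h5).smul h4

lemma cont_ve (e : Fin 3 → O) {T : Type} [TopologicalSpace T] {f : T → P2 O} {β : T → Bool}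
    (hf : Continuous f) (hb : ∀ t, 0 < (f t).b) (hβ : Continuous β) (i : Fin 4) :
    Continuous fun t => ve e (f t) (β t) i := by
  have h1 := cont_mu hf hb
  have h2 := cont_ka hf hb
  have h3 : Continuous fun t => cj (f t).z := continuous_cj (cont_z.comp hf)
  have key : ∀ j, Continuous fun t => bif β t then ka (f t) • (e j * cj (f t).z)
      else mu (f t) • e j := fun j =>
    cont_bif hβ (h2.smul (continuous_mm continuous_const h3)) (h1.smul continuous_const)
  fin_cases i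
  · exact key 0
  · exact key 1
  · exact key 2
  · exact cont_bif hβ (h1.smul continuous_const) (h2.smul h3)

end

end Pool.Agent.H59.OP
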