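import Mathlib

/-!
MP_6a7a6f_gt: the octonionic projective plane (Cayley plane) as the space of rank one idempotents
of the Jordan algebra of Hermitian 3 x 3 octonionic matrices. Definitions (board opg_modules).
-/

namespace Pool.Agent.H59.OP

noncomputable section

open scoped RealInnerProductSpace Quaternion

/-- a composition algebra over the reals: a real inner product space with a bilinear product
which has a unit element and a multiplicative norm -/
class CA (O : Type) [NormedAddCommGroup O] [InnerProductSpace ℝ O] where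
  ml : O →ₗ[ℝ] O →ₗ[ℝ] O
  e : O
  e_ml : ∀ x, ml e x = x
  ml_e : ∀ x, ml x e = x
  norm_e : ‖e‖ = 1
  norm_ml : ∀ x y, ‖ml x y‖ = ‖x‖ * ‖y‖

/-- the octonions as pairs of quaternions -/
abbrev Oct : Type := WithLp 2 (ℍ[ℝ] × ℍ[ℝ])

section

variable {O : Type} [NormedAddCommGroup O] [InnerProductSpace ℝ O] [CA O]

/-- the product -/
def mm (x y : O) : O := CA.ml x y

instance (priority := low) instMulCA : Mul O := ⟨mm⟩

/-- the unit element -/
def one (O : Type) [NormedAddCommGroup O] [InnerProductSpace ℝ O] [CA O] : O := CA.e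

/-- conjugation -/
def cj (x : O) : O := (2 * ⟪x, one O⟫) • one O - x

end

/-- the points of the projective plane over `O`: Hermitian matrices
`A = [[a, x, y], [x*, b, z], [y*, z*, c]]` with `A ^ 2 = A` and trace `1` -/
@[ext]
structure P2 (O : Type) [NormedAddCommGroup O] [InnerProductSpace ℝ O] [CA O] where
  a : ℝ
  b : ℝ
  c : ℝ
  x : O
  y : O
  z : O
  tr : a + b + c = 1
  h11 : a * a + ‖x‖ ^ 2 + ‖y‖ ^ 2 = a
  h22 : ‖x‖ ^ 2 + b * b + ‖z‖ ^ 2 = b
  h33 : ‖y‖ ^ 2 + ‖z‖ ^ 2 + c * c = c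
  h12 : a • x + b • x + y * cj z = x
  h13 : a • y + x * z + c • y = y
  h23 : cj x * y + b • z + c • z = z

section

variable {O : Type} [NormedAddCommGroup O] [InnerProductSpace ℝ O] [CA O]

/-- the trace form `tr (A B)` -/
def tf (A B : P2 O) : ℝ :=
  A.a * B.a + A.b * B.b + A.c * B.c + 2 * ⟪A.x, B.x⟫ + 2 * ⟪A.y, B.y⟫ + 2 * ⟪A.z, B.z⟫

/-- the distance `arccos (sqrt (tr (A B)))` -/
def dd (A B : P2 O) : ℝ := Real.arccos (Real.sqrt (tf A B))

lemma mm_def (x y : O) : x * y = CA.ml x y := rfl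
lemma mm_add (x y z : O) : x * (y + z) = x * y + x * z := by simp only [mm_def, map_add]
lemma add_mm (x y z : O) : (x + y) * z = x * z + y * z := by
  simp only [mm_def, map_add, LinearMap.add_apply]
lemma mm_sub (x y z : O) : x * (y - z) = x * y - x * z := by simp only [mm_def, map_sub]
lemma sub_mm (x y z : O) : (x - y) * z = x * z - y * z := by
  simp only [mm_def, map_sub, LinearMap.sub_apply]
lemma mm_smul (r : ℝ) (x y : O) : x * (r • y) = r • (x * y) := by simp only [mm_def, map_smul]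
lemma smul_mm (r : ℝ) (x y : O) : (r • x) * y = r • (x * y) := by
  simp only [mm_def, map_smul, LinearMap.smul_apply]
lemma mm_neg (x y : O) : x * (-y) = -(x * y) := by simp only [mm_def, map_neg]
lemma neg_mm (x y : O) : (-x) * y = -(x * y) := by
  simp only [mm_def, map_neg, LinearMap.neg_apply]
@[simp] lemma mm_zero (x : O) : x * (0 : O) = 0 := by simp only [mm_def, map_zero]
@[simp] lemma zero_mm (x : O) : (0 : O) * x = 0 := by
  simp only [mm_def, map_zero, LinearMap.zero_apply]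
@[simp] lemma one_mm (x : O) : one O * x = x := CA.e_ml x
@[simp] lemma mm_one (x : O) : x * one O = x := CA.ml_e x
@[simp] lemma norm_one' : ‖one O‖ = 1 := CA.norm_e
lemma norm_mm (x y : O) : ‖x * y‖ = ‖x‖ * ‖y‖ := CA.norm_ml x y
@[simp] lemma inner_one_one : ⟪one O, one O⟫ = 1 := by
  rw [real_inner_self_eq_norm_sq, norm_one']; norm_num

/-! ### identities of composition algebras -/

lemma inner_mm_left (x y z : O) : ⟪x * y, x * z⟫ = ‖x‖ ^ 2 * ⟪y, z⟫ := by
  have h1 : ‖x * (y + z)‖ ^ 2 = ‖x‖ ^ 2 * ‖y + z‖ ^ 2 := by rw [norm_mm, mul_pow]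
  rw [mm_add, norm_add_sq_real, norm_add_sq_real, norm_mm, norm_mm, mul_pow, mul_pow] at h1
  linarith

lemma inner_mm_right (x y z : O) : ⟪x * z, y * z⟫ = ⟪x, y⟫ * ‖z‖ ^ 2 := by
  have h1 : ‖(x + y) * z‖ ^ 2 = ‖x + y‖ ^ 2 * ‖z‖ ^ 2 := by rw [norm_mm, mul_pow]
  rw [add_mm, norm_add_sq_real, norm_add_sq_real, norm_mm, norm_mm, mul_pow, mul_pow] at h1
  linarith

lemma inner_exch (x y z w : O) : ⟪x * y, z * w⟫ + ⟪x * w, z * y⟫ = 2 * ⟪x, z⟫ * ⟪y, w⟫ := by
  have h1 := inner_mm_left (x + z) y w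
  have h2 := inner_mm_left x y w
  have h3 := inner_mm_left z y w
  rw [add_mm, add_mm, inner_add_left, inner_add_right, inner_add_right, h2, h3,
    norm_add_sq_real] at h1
  rw [real_inner_comm (z * y) (x * w)]
  linarith

lemma inner_cj_left (x y : O) : ⟪cj x, y⟫ = 2 * ⟪x, one O⟫ * ⟪one O, y⟫ - ⟪x, y⟫ := by
  rw [cj, inner_sub_left, inner_smul_left]
  rfl

lemma adj_left (x y z : O) : ⟪x * y, z⟫ = ⟪y, cj x * z⟫ := by
  have h := inner_exch x y (one O) z
  rw [one_mm, one_mm] at h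
  rw [cj, sub_mm, smul_mm, one_mm, inner_sub_right, inner_smul_right, real_inner_comm (x * z) y]
  linarith

lemma adj_right (x y z : O) : ⟪x * y, z⟫ = ⟪x, z * cj y⟫ := by
  have h := inner_exch x y z (one O)
  rw [mm_one, mm_one] at h
  rw [cj, mm_sub, mm_smul, mm_one, inner_sub_right, inner_smul_right]
  linarith

@[simp] lemma cj_cj (x : O) : cj (cj x) = x := by
  have h : ⟪cj x, one O⟫ = ⟪x, one O⟫ := by
    rw [inner_cj_left, inner_one_one]; ring
  rw [cj, h, cj]
  abel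

@[simp] lemma cj_one : cj (one O) = one O := by
  rw [cj, inner_one_one]
  module

@[simp] lemma cj_zero : cj (0 : O) = 0 := by simp [cj]

lemma inner_cj_one (x : O) : ⟪cj x, one O⟫ = ⟪x, one O⟫ := by
  rw [inner_cj_left, inner_one_one]; ring

lemma cj_add (x y : O) : cj (x + y) = cj x + cj y := by
  rw [cj, cj, cj, inner_add_left]; module

lemma cj_sub (x y : O) : cj (x - y) = cj x - cj y := by
  rw [cj, cj, cj, inner_sub_left]; module

lemma cj_smul (r : ℝ) (x : O) : cj (r • x) = r • cj x := by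
  rw [cj, cj, inner_smul_left]
  simp only [conj_trivial]
  module

lemma inner_cj_cj (x y : O) : ⟪cj x, cj y⟫ = ⟪x, y⟫ := by
  rw [inner_cj_left, real_inner_comm (cj y) (one O), inner_cj_one,
    real_inner_comm (cj y) x, inner_cj_left, real_inner_comm x (one O), real_inner_comm x y]
  ring

lemma inner_cj_comm (x y : O) : ⟪cj x, y⟫ = ⟪x, cj y⟫ := by
  rw [← inner_cj_cj (cj x) y, cj_cj]

@[simp] lemma norm_cj (x : O) : ‖cj x‖ = ‖x‖ := by
  have h := inner_cj_cj x x
  rw [real_inner_self_eq_norm_sq, real_inner_self_eq_norm_sq] at h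
  exact (sq_eq_sq₀ (norm_nonneg _) (norm_nonneg _)).1 h

omit [CA O] in
lemma ext_in {x y : O} (h : ∀ w, ⟪x, w⟫ = ⟪y, w⟫) : x = y := ext_inner_right ℝ h

lemma cj_mm_mm (x y : O) : cj x * (x * y) = ‖x‖ ^ 2 • y := by
  refine ext_in fun w => ?_
  rw [adj_left, cj_cj, inner_mm_left, inner_smul_left]
  rfl

lemma mm_mm_cj (x y : O) : (y * x) * cj x = ‖x‖ ^ 2 • y := by
  refine ext_in fun w => ?_
  rw [adj_right, cj_cj, inner_mm_right, inner_smul_left, mul_comm]
  rfl

lemma mm_cj_mm (x y : O) : x * (cj x * y) = ‖x‖ ^ 2 • y := by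
  have h := cj_mm_mm (cj x) y
  rwa [cj_cj, norm_cj] at h

lemma mm_cj_mm' (x y : O) : (y * cj x) * x = ‖x‖ ^ 2 • y := by
  have h := mm_mm_cj (cj x) y
  rwa [cj_cj, norm_cj] at h

lemma cj_mm_self (x : O) : cj x * x = ‖x‖ ^ 2 • one O := by
  have h := cj_mm_mm x (one O)
  rwa [mm_one] at h

lemma mm_cj_self (x : O) : x * cj x = ‖x‖ ^ 2 • one O := by
  have h := mm_mm_cj x (one O)
  rwa [one_mm] at h

lemma inner_assoc (x y z : O) : ⟪(x * y) * z, one O⟫ = ⟪x * (y * z), one O⟫ := by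
  rw [adj_right, one_mm, adj_left x y (cj z), adj_left x (y * z) (one O), mm_one, adj_right y z]

lemma cj_mm (x y : O) : cj (x * y) = cj y * cj x := by
  refine ext_in fun w => ?_
  have h1 : ⟪cj (x * y), w⟫ = ⟪(x * y) * w, one O⟫ := by
    rw [adj_left, mm_one, real_inner_comm]
  have h2 : ⟪cj y * cj x, w⟫ = ⟪x * (y * w), one O⟫ := by
    rw [adj_left, cj_cj, adj_left x, mm_one, real_inner_comm]
  rw [h1, h2, inner_assoc]

/-! ### the Moufang identities -/

/-- the middle Moufang identity -/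
lemma mouf_mid (a x y : O) : (a * x) * (y * a) = a * ((x * y) * a) := by
  refine ext_in fun z => ?_
  have h1 : ⟪(a * x) * (y * a), z⟫ =
      2 * ⟪y, cj x * cj a⟫ * ⟪a, z⟫ - ‖a‖ ^ 2 * ⟪y * z, cj x⟫ := by
    have h := inner_exch y a (cj x * cj a) z
    have h3 := mm_cj_mm' a (cj x)
    rw [h3, inner_smul_right] at h
    rw [adj_left, cj_mm]
    linarith
  have h2 : ⟪a * ((x * y) * a), z⟫ =
      2 * ⟪x * y, cj a⟫ * ⟪a, z⟫ - ‖a‖ ^ 2 * ⟪(x * y) * z, one O⟫ := by
    have h := inner_exch (x * y) a (cj a) z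
    rw [cj_mm_self, inner_smul_right] at h
    rw [adj_left]
    linarith
  have h3 : ⟪y, cj x * cj a⟫ = ⟪x * y, cj a⟫ := by rw [adj_left]
  have h4 : ⟪y * z, cj x⟫ = ⟪(x * y) * z, one O⟫ := by
    rw [inner_assoc, adj_left x, mm_one]
  rw [h1, h2, h3, h4]

lemma flex (a x : O) : (a * x) * a = a * (x * a) := by
  have h := mouf_mid a x (one O)
  rwa [one_mm, mm_one] at h

/-- the left Moufang identity -/
lemma mouf_left (a x z : O) : a * (x * (a * z)) = (a * (x * a)) * z := by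
  refine ext_in fun w => ?_
  have h1 : ⟪a * (x * (a * z)), w⟫ =
      2 * ⟪x, cj a⟫ * ⟪a * z, w⟫ - ‖a‖ ^ 2 * ⟪x * w, z⟫ := by
    have h := inner_exch x (a * z) (cj a) w
    rw [cj_mm_mm, inner_smul_right] at h
    rw [adj_left]
    linarith
  have h2 : ⟪(a * (x * a)) * z, w⟫ =
      2 * ⟪x, cj a⟫ * ⟪a * z, w⟫ - ‖a‖ ^ 2 * ⟪x * (w * cj z), one O⟫ := by
    have h := inner_exch x a (cj a) (w * cj z)
    rw [cj_mm_self, inner_smul_right] at h
    rw [adj_right, adj_left a, adj_right a z w]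
    linarith
  have h3 : ⟪x * (w * cj z), one O⟫ = ⟪x * w, z⟫ := by
    rw [← inner_assoc, adj_right, cj_cj, one_mm]
  rw [h1, h2, h3]

/-- the right Moufang identity -/
lemma mouf_right (a x z : O) : ((z * a) * x) * a = z * (a * (x * a)) := by
  have h := congrArg cj (mouf_left (cj a) (cj x) (cj z))
  rw [cj_mm, cj_mm, cj_mm, cj_mm, cj_mm, cj_mm] at h
  simp only [cj_cj] at h
  rw [h, flex]

end

/-- the base point -/
def bp (O : Type) [NormedAddCommGroup O] [InnerProductSpace ℝ O] [CA O] : P2 O where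
  a := 1
  b := 0
  c := 0
  x := 0
  y := 0
  z := 0
  tr := by norm_num
  h11 := by simp
  h22 := by simp
  h33 := by simp
  h12 := by simp
  h13 := by simp
  h23 := by simp

end

end Pool.Agent.H59.OP
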