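import Pool.Agent.H59.OP.Defs

/-!
MP_6a7a6f_gt: the projective plane over a composition algebra: elementary facts and a family of
maps which preserve the trace form and act transitively.
-/

namespace Pool.Agent.H59.OP

noncomputable section

open scoped RealInnerProductSpace

variable {O : Type} [NormedAddCommGroup O] [InnerProductSpace ℝ O] [CA O]

namespace P2

lemma nx (A : P2 O) : ‖A.x‖ ^ 2 = A.a * A.b := by
  have h1 := A.tr; have h2 := A.h11; have h3 := A.h22; have h4 := A.h33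
  have h5 : A.c = 1 - A.a - A.b := by linarith
  rw [h5] at h4
  nlinarith

lemma ny (A : P2 O) : ‖A.y‖ ^ 2 = A.a * A.c := by
  have h1 := A.tr; have h2 := A.h11; have h3 := A.h22; have h4 := A.h33
  have h5 : A.b = 1 - A.a - A.c := by linarith
  rw [h5] at h3
  nlinarith

lemma nz (A : P2 O) : ‖A.z‖ ^ 2 = A.b * A.c := by
  have h1 := A.tr; have h2 := A.h11; have h3 := A.h22; have h4 := A.h33
  have h5 : A.a = 1 - A.b - A.c := by linarith
  rw [h5] at h2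
  nlinarith

lemma yz (A : P2 O) : A.y * cj A.z = A.c • A.x := by
  have h1 := A.h12
  have h2 : A.c = 1 - A.a - A.b := by linarith [A.tr]
  rw [h2]
  calc A.y * cj A.z = (A.a • A.x + A.b • A.x + A.y * cj A.z) - A.a • A.x - A.b • A.x := by abel
    _ = _ := by rw [h1]; module

lemma xz (A : P2 O) : A.x * A.z = A.b • A.y := by
  have h1 := A.h13
  have h2 : A.b = 1 - A.a - A.c := by linarith [A.tr]
  rw [h2]
  calc A.x * A.z = (A.a • A.y + A.x * A.z + A.c • A.y) - A.a • A.y - A.c • A.y := by abel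
    _ = _ := by rw [h1]; module

lemma xy (A : P2 O) : cj A.x * A.y = A.a • A.z := by
  have h1 := A.h23
  have h2 : A.a = 1 - A.b - A.c := by linarith [A.tr]
  rw [h2]
  calc cj A.x * A.y = (cj A.x * A.y + A.b • A.z + A.c • A.z) - A.b • A.z - A.c • A.z := by abel
    _ = _ := by rw [h1]; module

lemma nonneg (A : P2 O) : 0 ≤ A.a ∧ 0 ≤ A.b ∧ 0 ≤ A.c := by
  have h1 : 0 ≤ A.a * A.b := by rw [← A.nx]; positivity
  have h2 : 0 ≤ A.a * A.c := by rw [← A.ny]; positivity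
  have h3 : 0 ≤ A.b * A.c := by rw [← A.nz]; positivity
  have h4 := A.tr
  refine ⟨?_, ?_, ?_⟩
  · nlinarith [sq_nonneg A.a, sq_nonneg A.b, sq_nonneg A.c]
  · nlinarith [sq_nonneg A.a, sq_nonneg A.b, sq_nonneg A.c]
  · nlinarith [sq_nonneg A.a, sq_nonneg A.b, sq_nonneg A.c]

end P2

/-- a point from its simplified equations -/
def mkP (a b c : ℝ) (x y z : O) (tr : a + b + c = 1) (hx : ‖x‖ ^ 2 = a * b)
    (hy : ‖y‖ ^ 2 = a * c) (hz : ‖z‖ ^ 2 = b * c) (hyz : y * cj z = c • x)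
    (hxz : x * z = b • y) (hxy : cj x * y = a • z) : P2 O where
  a := a
  b := b
  c := c
  x := x
  y := y
  z := z
  tr := tr
  h11 := by rw [hx, hy]; nlinarith
  h22 := by rw [hx, hz]; nlinarith
  h33 := by rw [hy, hz]; nlinarith
  h12 := by
    rw [hyz, ← add_smul, ← add_smul, tr, one_smul]
  h13 := by
    rw [hxz, ← add_smul, ← add_smul, tr, one_smul]
  h23 := by
    rw [hxy, ← add_smul, ← add_smul, tr, one_smul]

/-- the exchange of the last two coordinates -/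
def sw (A : P2 O) : P2 O :=
  mkP A.a A.c A.b A.y A.x (cj A.z) (by linarith [A.tr]) A.ny A.nx
    (by rw [norm_cj, A.nz, mul_comm]) (by rw [cj_cj, A.xz]) A.yz
    (by rw [← cj_smul, ← A.xy, cj_mm, cj_cj])

lemma tf_sw (A B : P2 O) : tf (sw A) (sw B) = tf A B := by
  simp only [tf, sw, mkP, inner_cj_cj]
  ring

/-- the action of a unit element -/
def un (u : O) (hu : ‖u‖ = 1) (A : P2 O) : P2 O :=
  mkP A.a A.b A.c (u * A.x) (u * (A.y * u)) (A.z * u) A.tr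
    (by rw [norm_mm, hu, one_mul, A.nx]) (by rw [norm_mm, norm_mm, hu, one_mul, mul_one, A.ny])
    (by rw [norm_mm, hu, mul_one, A.nz])
    (by
      rw [cj_mm, ← mouf_left, mm_cj_mm, hu, one_pow, one_smul, A.yz, mm_smul])
    (by rw [mouf_mid, A.xz, smul_mm, mm_smul])
    (by
      rw [cj_mm, ← mouf_right, mm_cj_mm', hu, one_pow, one_smul, A.xy, smul_mm])

lemma tf_un (u : O) (hu : ‖u‖ = 1) (A B : P2 O) : tf (un u hu A) (un u hu B) = tf A B := by
  simp only [tf, un, mkP, inner_mm_left, inner_mm_right, hu]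
  ring

lemma inner_yz (A : P2 O) : ⟪A.y, A.z⟫ = A.c * ⟪A.x, one O⟫ := by
  have h : ⟪A.y * cj A.z, one O⟫ = ⟪A.c • A.x, one O⟫ := by rw [A.yz]
  rw [adj_right, cj_cj, one_mm, inner_smul_left] at h
  exact h

lemma mm_xy (A : P2 O) : A.x * A.y = (2 * ⟪A.x, one O⟫) • A.y - A.a • A.z := by
  have h := A.xy
  rw [cj, sub_mm, smul_mm, one_mm] at h
  rw [← h]
  abel

lemma mm_cxz (A : P2 O) : cj A.x * A.z = (2 * ⟪A.x, one O⟫) • A.z - A.b • A.y := by
  have h := A.xz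
  rw [cj, sub_mm, smul_mm, one_mm, h]

lemma mm_zcy (A : P2 O) : A.z * cj A.y = A.c • cj A.x := by
  rw [← cj_smul, ← A.yz, cj_mm, cj_cj]

omit [CA O] in
lemma norm_comb2 (p q : ℝ) (v w : O) :
    ‖p • v + q • w‖ ^ 2 = p ^ 2 * ‖v‖ ^ 2 + 2 * (p * q) * ⟪v, w⟫ + q ^ 2 * ‖w‖ ^ 2 := by
  rw [norm_add_sq_real, norm_smul, norm_smul, inner_smul_left, inner_smul_right, mul_pow, mul_pow,
    Real.norm_eq_abs, Real.norm_eq_abs, sq_abs, sq_abs]
  simp only [conj_trivial]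
  ring

/-- the first off-diagonal entry after a rotation -/
def rx (C S : ℝ) (A : P2 O) : O :=
  C ^ 2 • A.x - S ^ 2 • cj A.x + (C * S * (A.b - A.a)) • one O

lemma rx_eq (C S : ℝ) (h : C ^ 2 + S ^ 2 = 1) (A : P2 O) :
    rx C S A = A.x + (C * S * (A.b - A.a) - 2 * S ^ 2 * ⟪A.x, one O⟫) • one O := by
  have h1 : C ^ 2 = 1 - S ^ 2 := by linarith
  rw [rx, cj, h1]
  module

lemma norm_rx (C S : ℝ) (h : C ^ 2 + S ^ 2 = 1) (A : P2 O) :
    ‖rx C S A‖ ^ 2 = (C ^ 2 * A.a + 2 * (C * S) * ⟪A.x, one O⟫ + S ^ 2 * A.b) *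
      (S ^ 2 * A.a - 2 * (C * S) * ⟪A.x, one O⟫ + C ^ 2 * A.b) := by
  have h1 := norm_comb2 1 (C * S * (A.b - A.a) - 2 * S ^ 2 * ⟪A.x, one O⟫) A.x (one O)
  rw [one_smul] at h1
  rw [rx_eq C S h, h1, A.nx, norm_one']
  set r := ⟪A.x, one O⟫
  have h2 : C ^ 2 = 1 - S ^ 2 := by linarith
  have e1 : (C ^ 2 * A.a + 2 * (C * S) * r + S ^ 2 * A.b) *
      (S ^ 2 * A.a - 2 * (C * S) * r + C ^ 2 * A.b) =
      C ^ 2 * S ^ 2 * A.a ^ 2 + C ^ 2 * C ^ 2 * A.a * A.b + S ^ 2 * S ^ 2 * A.a * A.b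
        + C ^ 2 * S ^ 2 * A.b ^ 2 - 4 * C ^ 2 * S ^ 2 * r ^ 2
        + 2 * (C * S) * r * (A.a * (S ^ 2 - C ^ 2) + A.b * (C ^ 2 - S ^ 2)) := by ring
  have e2 : (1 : ℝ) ^ 2 * (A.a * A.b) +
      2 * (1 * (C * S * (A.b - A.a) - 2 * S ^ 2 * r)) * r +
      (C * S * (A.b - A.a) - 2 * S ^ 2 * r) ^ 2 * 1 ^ 2 =
      A.a * A.b + 2 * (C * S) * (A.b - A.a) * r - 4 * S ^ 2 * r ^ 2 +
      C ^ 2 * S ^ 2 * (A.b - A.a) ^ 2 - 4 * (C * S) * (A.b - A.a) * S ^ 2 * r +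
      4 * S ^ 2 * S ^ 2 * r ^ 2 := by ring
  rw [e1, e2, h2]
  ring

/-- the rotation of the first two coordinates -/
def ro (C S : ℝ) (h : C ^ 2 + S ^ 2 = 1) (A : P2 O) : P2 O :=
  mkP (C ^ 2 * A.a + 2 * (C * S) * ⟪A.x, one O⟫ + S ^ 2 * A.b)
    (S ^ 2 * A.a - 2 * (C * S) * ⟪A.x, one O⟫ + C ^ 2 * A.b) A.c
    (rx C S A) (C • A.y + S • A.z) (C • A.z - S • A.y)
    (by linear_combination (A.a + A.b) * h + A.tr)
    (norm_rx C S h A)
    (by
      rw [norm_comb2, A.ny, A.nz, inner_yz]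
      ring)
    (by
      have e : C • A.z - S • A.y = C • A.z + (-S) • A.y := by module
      rw [e, norm_comb2, A.ny, A.nz, real_inner_comm, inner_yz]
      ring)
    (by
      rw [cj_sub, cj_smul, cj_smul, mm_sub, add_mm, add_mm]
      simp only [smul_mm, mm_smul]
      rw [A.yz, mm_cj_self, mm_zcy, mm_cj_self, A.ny, A.nz, rx]
      module)
    (by
      rw [rx, mm_sub, add_mm, add_mm, sub_mm, sub_mm]
      simp only [smul_mm, mm_smul, one_mm]
      rw [A.xz, mm_cxz, mm_xy, A.xy]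
      match_scalars
      · ring
      · ring)
    (by
      rw [rx, cj_add, cj_sub, cj_smul, cj_smul, cj_smul, cj_cj, cj_one, mm_add, add_mm, add_mm,
        sub_mm, sub_mm]
      simp only [smul_mm, mm_smul, one_mm]
      rw [A.xz, mm_cxz, mm_xy, A.xy]
      match_scalars
      · ring
      · ring)

omit [CA O] in
lemma inner_comb2 (p q s t : ℝ) (v w v' w' : O) :
    ⟪p • v + q • w, s • v' + t • w'⟫ =
      p * s * ⟪v, v'⟫ + p * t * ⟪v, w'⟫ + q * s * ⟪w, v'⟫ + q * t * ⟪w, w'⟫ := by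
  simp only [inner_add_left, inner_add_right, inner_smul_left, inner_smul_right, conj_trivial]
  ring

lemma tf_ro (C S : ℝ) (h : C ^ 2 + S ^ 2 = 1) (A B : P2 O) :
    tf (ro C S h A) (ro C S h B) = tf A B := by
  have e : ∀ D : P2 O, C • D.z - S • D.y = C • D.z + (-S) • D.y := fun D => by module
  have e1 : ∀ D : P2 O, rx C S D =
      (1 : ℝ) • D.x + (C * S * (D.b - D.a) - 2 * S ^ 2 * ⟪D.x, one O⟫) • one O := fun D => by
    rw [rx_eq C S h, one_smul]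
  simp only [tf, ro, mkP, e, e1]
  rw [inner_comb2, inner_comb2, inner_comb2, inner_one_one, real_inner_comm B.x (one O)]
  linear_combination ((A.a * B.a + A.b * B.b) * (C ^ 2 + S ^ 2 + 1) +
    8 * S ^ 2 * ⟪A.x, one O⟫ * ⟪B.x, one O⟫ - 2 * (C * S) * (A.b - A.a) * ⟪B.x, one O⟫ -
    2 * (C * S) * (B.b - B.a) * ⟪A.x, one O⟫ + 2 * ⟪A.y, B.y⟫ + 2 * ⟪A.z, B.z⟫) * h

/-- a map of the plane which preserves the trace form -/
def Pres (φ : P2 O → P2 O) : Prop := ∀ A B, tf (φ A) (φ B) = tf A B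

lemma Pres.comp {φ ψ : P2 O → P2 O} (h : Pres φ) (h' : Pres ψ) : Pres (φ ∘ ψ) := fun A B => by
  rw [Function.comp, Function.comp, h, h']

lemma pass (B : P2 O) : ∃ φ : P2 O → P2 O, Pres φ ∧ (φ B).b = 0 ∧ (φ B).c = B.c := by
  obtain ⟨u, hu, hux⟩ : ∃ u : O, ‖u‖ = 1 ∧ u * B.x = ‖B.x‖ • one O := by
    by_cases hx : B.x = 0
    · exact ⟨one O, norm_one', by rw [hx]; simp⟩
    · have hn : ‖B.x‖ ≠ 0 := norm_ne_zero_iff.2 hx
      refine ⟨(‖B.x‖)⁻¹ • cj B.x, ?_, ?_⟩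
      · rw [norm_smul, norm_cj, norm_inv, norm_norm, inv_mul_cancel₀ hn]
      · rw [smul_mm, cj_mm_self, smul_smul]
        congr 1
        field_simp
  have hab := B.nx
  obtain ⟨ha, hb, hc⟩ := B.nonneg
  by_cases h0 : B.a + B.b = 0
  · exact ⟨id, fun _ _ => rfl, by simp only [id]; linarith, rfl⟩
  · have hpos : 0 < B.a + B.b := lt_of_le_of_ne (by linarith) (Ne.symm h0)
    have hCS : Real.sqrt (B.a / (B.a + B.b)) ^ 2 + Real.sqrt (B.b / (B.a + B.b)) ^ 2 = 1 := by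
      rw [Real.sq_sqrt (by positivity), Real.sq_sqrt (by positivity)]
      field_simp
    refine ⟨ro _ _ hCS ∘ un u hu, Pres.comp (tf_ro _ _ hCS) (tf_un u hu), ?_, rfl⟩
    have h1 : Real.sqrt (B.a / (B.a + B.b)) * Real.sqrt (B.b / (B.a + B.b)) =
        ‖B.x‖ / (B.a + B.b) := by
      rw [← Real.sqrt_mul (by positivity)]
      rw [Real.sqrt_eq_iff_mul_self_eq (by positivity) (by positivity)]
      field_simp
      nlinarith
    change Real.sqrt (B.b / (B.a + B.b)) ^ 2 * B.a -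
      2 * (Real.sqrt (B.a / (B.a + B.b)) * Real.sqrt (B.b / (B.a + B.b))) *
        ⟪u * B.x, one O⟫ + Real.sqrt (B.a / (B.a + B.b)) ^ 2 * B.b = 0
    rw [h1, hux, inner_smul_left, inner_one_one, Real.sq_sqrt (by positivity),
      Real.sq_sqrt (by positivity)]
    simp only [conj_trivial]
    field_simp
    nlinarith

lemma eq_bp {B : P2 O} (hb : B.b = 0) (hc : B.c = 0) : B = bp O := by
  have ha : B.a = 1 := by linarith [B.tr]
  have hx := B.nx; have hy := B.ny; have hz := B.nz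
  rw [hb, mul_zero] at hx
  rw [hc, mul_zero] at hy hz
  refine P2.ext ha hb hc ?_ ?_ ?_
  · exact norm_eq_zero.1 (by simpa using hx)
  · exact norm_eq_zero.1 (by simpa using hy)
  · exact norm_eq_zero.1 (by simpa using hz)

/-- transitivity -/
lemma trans_bp (B : P2 O) : ∃ φ : P2 O → P2 O, Pres φ ∧ φ B = bp O := by
  obtain ⟨φ, h1, h2, h3⟩ := pass B
  obtain ⟨ψ, h4, h5, h6⟩ := pass (sw (φ B))
  refine ⟨ψ ∘ sw ∘ φ, h4.comp ((show Pres sw from tf_sw).comp h1), eq_bp h5 ?_⟩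
  change (ψ (sw (φ B))).c = 0
  rw [h6]
  exact h2

end

end Pool.Agent.H59.OP
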