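import Pool.Agent.H59.OP.Data

/-!
MP_6a7a6f_gt: the contraction of the projective plane over a composition algebra of dimension at
least five.
-/

namespace Pool.Agent.H59.OP

noncomputable section

open scoped RealInnerProductSpace
open Filter Topology
open Pool.Agent.H48.FR (Dat IsMx T_RZ T_PA T_AB sg sg_zero sg_pos sg_mem continuous_sg rad kurU)

variable {O : Type} [NormedAddCommGroup O] [InnerProductSpace ℝ O] [CA O]

lemma ve_orth {e : Fin 3 → O} (he : Orthonormal ℝ e) (A : P2 O) (β : Bool) :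
    ⟪ve e A β 0, ve e A β 1⟫ = 0 ∧ ⟪ve e A β 0, ve e A β 2⟫ = 0 ∧
      ⟪ve e A β 1, ve e A β 2⟫ = 0 := by
  have h : ∀ i j : Fin 3, i ≠ j → ⟪(bif β then ka A • (e i * cj A.z) else mu A • e i),
      (bif β then ka A • (e j * cj A.z) else mu A • e j)⟫ = 0 := by
    intro i j hij
    cases β
    · change ⟪mu A • e i, mu A • e j⟫ = 0
      rw [real_inner_smul_left, real_inner_smul_right, he.2 hij]; ring
    · change ⟪ka A • (e i * cj A.z), ka A • (e j * cj A.z)⟫ = 0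
      rw [real_inner_smul_left, real_inner_smul_right, inner_mm_right, he.2 hij]; ring
  exact ⟨h 0 1 (by decide), h 0 2 (by decide), h 1 2 (by decide)⟩

lemma ve_ne {e : Fin 3 → O} (he : Orthonormal ℝ e) {A : P2 O} (h : 0 < A.b) (β : Bool) :
    ve e A β 3 ≠ 0 ∨ (ve e A β 0 ≠ 0 ∧ ve e A β 1 ≠ 0 ∧ ve e A β 2 ≠ 0) := by
  cases β
  · right
    have k : ∀ i, mu A • e i ≠ 0 := fun i =>
      smul_ne_zero (mu_pos h).ne' (he.ne_zero i)
    exact ⟨k 0, k 1, k 2⟩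
  · left
    change mu A • one O ≠ 0
    refine smul_ne_zero (mu_pos h).ne' ?_
    rw [← norm_ne_zero_iff, norm_one']
    exact one_ne_zero

lemma dist_yy {ρ : ℝ} (X : HP O × Bool) (h : 0 < X.1.1.b) (q q' : US O) :
    dist (yy ρ X q) (yy ρ X q') = dist (rg ρ X.1.1 h q.1 q.2) (rg ρ X.1.1 h q'.1 q'.2) := by
  unfold yy
  rw [dif_pos h, dif_pos h]
  cases X.2
  · rfl
  · exact dist_sw _ _

lemma dist_pr_yy {ρ : ℝ} (X : HP O × Bool) (h : 0 < X.1.1.b) (q : US O) :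
    dist (pr X) (yy ρ X q) = dist X.1.1 (rg ρ X.1.1 h q.1 q.2) := by
  unfold yy pr
  rw [dif_pos h]
  cases X.2
  · rfl
  · exact dist_sw _ _

lemma dist_bp_yy {ρ : ℝ} (X : HP O × Bool) (h : 0 < X.1.1.b) (q : US O) :
    dist (bp O) (yy ρ X q) = dist (bp O) (rg ρ X.1.1 h q.1 q.2) := by
  unfold yy
  rw [dif_pos h]
  cases X.2
  · rfl
  · have := dist_sw (bp O) (rg ρ X.1.1 h q.1 q.2)
    rw [sw_bp] at this
    exact this

lemma dist_bp_pr (X : HP O × Bool) : dist (bp O) (pr X) = dist (bp O) X.1.1 := by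
  unfold pr
  cases X.2
  · rfl
  · have := dist_sw (bp O) X.1.1
    rw [sw_bp] at this
    exact this

lemma cos_bp (A : P2 O) : Real.cos (dist (bp O) A) = Real.sqrt A.a := by
  rw [dist_def, cos_dd, tf_comm, tf_bp]

lemma sin_bp (A : P2 O) : Real.sin (dist (bp O) A) = Real.sqrt (1 - A.a) := by
  rw [dist_def, sin_dd, tf_comm, tf_bp]

/-- the condition `near` -/
lemma near_all {r ρ₁ ρ₂ : ℝ} (h1 : Real.pi / 4 < ρ₁) (h2 : ρ₁ < r) (h3 : 0 < ρ₂)
    (h4 : Real.pi - r - ρ₁ < ρ₂) (h5 : ρ₂ < Real.pi / 2) (hr2 : r < Real.pi / 2)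
    (v : Fin 4 → O) (A : P2 O) (hb : 0 < A.b) (q : O) (hqn : ‖q‖ = 1)
    (hq : ∀ a : O, ‖a‖ = 1 → fu (la A) v (sg ρ₂ (dist (bp O) A)) a ≤
      fu (la A) v (sg ρ₂ (dist (bp O) A)) q) : dist A (rg ρ₁ A hb q hqn) < r := by
  have hpi := Real.pi_pos
  have hρ0 : 0 ≤ ρ₁ := by linarith
  have hρ1 : ρ₁ ≤ Real.pi / 2 := by linarith
  have e : tf A (rg ρ₁ A hb q hqn) = A.a * Real.cos ρ₁ ^ 2 + (1 - A.a) * Real.sin ρ₁ ^ 2 +
    2 * Real.cos ρ₁ * Real.sin ρ₁ * ⟪q, la A⟫ := tf_rg ρ₁ A hb q hqn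
  have h10 : Real.cos (dist A (rg ρ₁ A hb q hqn)) ^ 2 = tf A (rg ρ₁ A hb q hqn) :=
    cos_dd_sq A (rg ρ₁ A hb q hqn)
  have d1 : Real.cos (dist (bp O) A) ^ 2 = A.a := by
    rw [cos_bp, Real.sq_sqrt A.nonneg.1]
  have d2 : Real.sin (dist (bp O) A) ^ 2 = 1 - A.a := by
    rw [sin_bp, Real.sq_sqrt (one_sub_a_pos hb).le]
  have hla := norm_la hb
  generalize hρ : dist (bp O) A = ρ at *
  have hρn : 0 ≤ ρ := by rw [← hρ]; exact dist_nonneg
  have hρp : ρ ≤ Real.pi / 2 := by rw [← hρ]; exact dist_le _ _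
  have c0 : 0 ≤ Real.cos ρ := Real.cos_nonneg_of_mem_Icc ⟨by linarith, hρp⟩
  have s0 : 0 ≤ Real.sin ρ := Real.sin_nonneg_of_nonneg_of_le_pi hρn (by linarith)
  have c1 : 0 ≤ Real.cos ρ₁ := Real.cos_nonneg_of_mem_Icc ⟨by linarith, hρ1⟩
  have s1 : 0 ≤ Real.sin ρ₁ := Real.sin_nonneg_of_nonneg_of_le_pi hρ0 (by linarith)
  have hla' : ‖la A‖ = Real.cos ρ * Real.sin ρ := by
    have h7 : ‖la A‖ ^ 2 = (Real.cos ρ * Real.sin ρ) ^ 2 := by
      rw [hla, mul_pow, d1, d2]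
    exact (sq_eq_sq₀ (norm_nonneg _) (mul_nonneg c0 s0)).1 h7
  have hsr : 0 ≤ Real.cos r := Real.cos_nonneg_of_mem_Icc ⟨by linarith, by linarith⟩
  have h7 := dist_le A (rg ρ₁ A hb q hqn)
  have h70 : 0 ≤ dist A (rg ρ₁ A hb q hqn) := dist_nonneg
  have hda : 1 - A.a = Real.sin ρ ^ 2 := d2.symm
  rw [hda, ← d1] at e
  have hcoef : 0 ≤ 2 * Real.cos ρ₁ * Real.sin ρ₁ := by positivity
  have fin : Real.cos r ^ 2 < Real.cos (dist A (rg ρ₁ A hb q hqn)) ^ 2 →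
      dist A (rg ρ₁ A hb q hqn) < r := by
    intro h
    by_contra hc
    have hc' := le_of_not_gt hc
    have h8 : Real.cos (dist A (rg ρ₁ A hb q hqn)) ≤ Real.cos r :=
      Real.cos_le_cos_of_nonneg_of_le_pi (by linarith) (by linarith) hc'
    have h9 : 0 ≤ Real.cos (dist A (rg ρ₁ A hb q hqn)) :=
      Real.cos_nonneg_of_mem_Icc ⟨by linarith, h7⟩
    exact absurd (pow_le_pow_left₀ h9 h8 2) (not_le.2 h)
  refine fin ?_
  rw [h10, e]
  by_cases hcase : ρ ≤ ρ₂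
  · have hσ : sg ρ₂ ρ = 0 := sg_zero h5 hcase
    obtain ⟨a, ha, ha1⟩ := la_max (la A) ⟨q, hqn⟩
    have h7 := hq a ha
    rw [hσ] at h7
    unfold fu at h7
    rw [sub_zero, one_mul, one_mul, zero_mul, zero_mul, add_zero, add_zero, ha1, hla'] at h7
    have h8 : Real.cos (ρ - ρ₁) ^ 2 ≤ Real.cos ρ ^ 2 * Real.cos ρ₁ ^ 2 +
        Real.sin ρ ^ 2 * Real.sin ρ₁ ^ 2 +
        2 * Real.cos ρ₁ * Real.sin ρ₁ * ⟪q, la A⟫ := by
      rw [Real.cos_sub]
      nlinarith [mul_le_mul_of_nonneg_left h7 hcoef]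
    refine lt_of_lt_of_le ?_ h8
    have h9 : Real.cos r < Real.cos (ρ - ρ₁) := by
      rw [← Real.cos_abs (ρ - ρ₁)]
      refine Real.cos_lt_cos_of_nonneg_of_le_pi (abs_nonneg _) (by linarith) ?_
      rw [abs_lt]
      constructor <;> linarith
    exact pow_lt_pow_left₀ h9 hsr two_ne_zero
  · have h7 : -(Real.cos ρ * Real.sin ρ) ≤ ⟪q, la A⟫ := by
      have := (abs_le.1 (abs_real_inner_le_norm q (la A))).1
      rwa [hqn, one_mul, hla'] at this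
    have h8 : Real.cos (ρ + ρ₁) ^ 2 ≤ Real.cos ρ ^ 2 * Real.cos ρ₁ ^ 2 +
        Real.sin ρ ^ 2 * Real.sin ρ₁ ^ 2 +
        2 * Real.cos ρ₁ * Real.sin ρ₁ * ⟪q, la A⟫ := by
      rw [Real.cos_add]
      nlinarith [mul_le_mul_of_nonneg_left h7 hcoef]
    refine lt_of_lt_of_le ?_ h8
    have h9 : Real.cos r < Real.cos (Real.pi - (ρ + ρ₁)) := by
      refine Real.cos_lt_cos_of_nonneg_of_le_pi (by linarith) (by linarith) ?_
      linarith [lt_of_not_ge hcase]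
    rw [Real.cos_pi_sub] at h9
    have h11 := pow_lt_pow_left₀ h9 hsr two_ne_zero
    rwa [neg_sq] at h11

/-- The contraction. -/
theorem co_op [FiniteDimensional ℝ O] (hd : 5 ≤ Module.finrank ℝ O) (hRZ : T_RZ) (hPA : T_PA)
    {r : ℝ} (hr1 : 2 * rad 1 < r) (hr2 : r < Real.pi / 2) :
    ∃ Δ : Dat (P2 O) (HP O × Bool) (US O), Δ.r = r := by
  obtain ⟨ρ₁, ρ₂, h1, h2, h3, h4, h5, h6⟩ := hPA.2 1 r le_rfl hr1 hr2
  obtain ⟨e, he⟩ : ∃ e : Fin 3 → O, Orthonormal ℝ e := by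
    let b := stdOrthonormalBasis ℝ O
    refine ⟨fun i => b ⟨i.1, by have := i.2; omega⟩, ?_⟩
    exact b.orthonormal.comp _ fun i j hij => by
      have := congrArg Fin.val hij
      exact Fin.ext this
  have hpi := Real.pi_pos
  have hρ0 : 0 ≤ ρ₁ := by linarith
  have hρ1 : ρ₁ ≤ Real.pi / 2 := by linarith
  refine ⟨{
    π := pr
    p := bp O
    y := yy ρ₁
    F := fun X s q => FF e X s q.1
    σ := sg ρ₂
    r := r
    hπ := continuous_pr
    surj := pr_surj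
    hσ := continuous_sg ρ₂
    σ_mem := sg_mem ρ₂
    r_pos := by linarith
    hy := ?_
    hF := ?_
    inv := inv_all ρ₁ e
    dist_p := ?_
    pair := ?_
    near := ?_ }, rfl⟩
  · rw [continuousOn_iff_continuous_domRestrict]
    have hb : ∀ Z : {Z : (HP O × Bool) × US O // pr Z.1 ≠ bp O}, 0 < Z.1.1.1.1.b :=
      fun Z => b_pos Z.2
    have h7 : Continuous fun Z : {Z : (HP O × Bool) × US O // pr Z.1 ≠ bp O} =>
        Z.1.1.1.1 := by fun_prop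
    have h8 : Continuous fun Z : {Z : (HP O × Bool) × US O // pr Z.1 ≠ bp O} =>
        Z.1.2 := by fun_prop
    have h9 : Continuous fun Z : {Z : (HP O × Bool) × US O // pr Z.1 ≠ bp O} =>
        Z.1.1.2 := by fun_prop
    have h10 := cont_rg ρ₁ h7 hb h8
    have h11 := cont_bif h9 (continuous_sw.comp h10) h10
    refine h11.congr fun Z => ?_
    change _ = yy ρ₁ Z.1.1 Z.1.2
    unfold yy
    rw [dif_pos (hb Z)]
    rfl
  · rw [continuousOn_iff_continuous_domRestrict]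
    have hb : ∀ Z : {Z : (HP O × Bool) × ℝ × US O // pr Z.1 ≠ bp O}, 0 < Z.1.1.1.1.b :=
      fun Z => b_pos Z.2
    have h7 : Continuous fun Z : {Z : (HP O × Bool) × ℝ × US O // pr Z.1 ≠ bp O} =>
        Z.1.1.1.1 := by fun_prop
    have h8 : Continuous fun Z : {Z : (HP O × Bool) × ℝ × US O // pr Z.1 ≠ bp O} =>
        Z.1.2.2.1 := by fun_prop
    have hs : Continuous fun Z : {Z : (HP O × Bool) × ℝ × US O // pr Z.1 ≠ bp O} =>
        Z.1.2.1 := by fun_prop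
    have h9 : Continuous fun Z : {Z : (HP O × Bool) × ℝ × US O // pr Z.1 ≠ bp O} =>
        Z.1.1.2 := by fun_prop
    have h10 := cont_la h7 hb
    have h11 := cont_ve e h7 hb h9
    have h12 : Continuous fun Z : {Z : (HP O × Bool) × ℝ × US O // pr Z.1 ≠ bp O} =>
        (1 - Z.1.2.1) * ⟪Z.1.2.2.1, la Z.1.1.1.1⟫ + Z.1.2.1 *
          (⟪Z.1.2.2.1, ve e Z.1.1.1.1 Z.1.1.2 0⟫ * ⟪Z.1.2.2.1, ve e Z.1.1.1.1 Z.1.1.2 1⟫ *
            ⟪Z.1.2.2.1, ve e Z.1.1.1.1 Z.1.1.2 2⟫ +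
              ⟪Z.1.2.2.1, ve e Z.1.1.1.1 Z.1.1.2 3⟫ ^ 3) := by
      refine ((continuous_const.sub hs).mul (h8.inner h10)).add (hs.mul ?_)
      exact (((h8.inner (h11 0)).mul (h8.inner (h11 1))).mul (h8.inner (h11 2))).add
        ((h8.inner (h11 3)).pow 3)
    exact h12
  · intro X q hX
    rw [dist_bp_yy X (b_pos hX), dist_rg_bp hρ0 hρ1]
    exact h2.le
  · intro X hX s hs q q' hq hq'
    have hs0 : 0 ≤ s := (sg_mem ρ₂ _).1.trans hs.1
    have hb := b_pos hX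
    obtain ⟨o1, o2, o3⟩ := ve_orth he X.1.1 X.2
    obtain ⟨a, ha, hapos⟩ := fu_pos hd (la X.1.1) (ve e X.1.1 X.2) s o1 o2 o3
      (ve_ne he hb X.2) hs0 (by
        intro hs00 hx0
        have h7 : sg ρ₂ (dist (bp O) (pr X)) = 0 :=
          le_antisymm (by rw [← hs00]; exact hs.1) (sg_mem ρ₂ _).1
        have h8 : dist (bp O) (pr X) ≤ ρ₂ := by
          by_contra hc
          exact (sg_pos h5 (lt_of_not_ge hc)).ne' h7
        rw [dist_bp_pr] at h8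
        have h9 : 0 < Real.cos (dist (bp O) X.1.1) :=
          Real.cos_pos_of_mem_Ioo ⟨by
            have h10 : 0 ≤ dist (bp O) X.1.1 := dist_nonneg
            linarith, by linarith⟩
        rw [cos_bp] at h9
        have h10 := Real.sqrt_pos.1 h9
        have h11 := norm_la hb
        rw [hx0, norm_zero] at h11
        have h12 := mul_pos h10 (one_sub_a_pos hb)
        nlinarith)
    have hpos : 0 < fu (la X.1.1) (ve e X.1.1 X.2) s q.1 := hapos.trans_le (hq ⟨a, ha⟩)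
    have hfa := fu_far hRZ (la X.1.1) (ve e X.1.1 X.2) s q.1 q'.1 q.2 q'.2
      (fun a ha => hq ⟨a, ha⟩) (fun a ha => hq' ⟨a, ha⟩) hpos
    rw [dist_yy X hb]
    have e1 := cos_two_dist_rg ρ₁ X.1.1 hb q.1 q'.1 q.2 q'.2
    by_contra hc
    have hc' := le_of_not_gt hc
    have h7 := dist_le (rg ρ₁ X.1.1 hb q.1 q.2) (rg ρ₁ X.1.1 hb q'.1 q'.2)
    have h8 : Real.cos (2 * dist (rg ρ₁ X.1.1 hb q.1 q.2) (rg ρ₁ X.1.1 hb q'.1 q'.2)) ≤
        Real.cos (2 * r) :=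
      Real.cos_le_cos_of_nonneg_of_le_pi (by linarith) (by linarith) (by linarith)
    rw [e1] at h8
    have h9 : -Real.cos (Real.pi / (2 * (1 : ℕ) + 1)) * Real.sin (2 * ρ₁) ^ 2 ≤
        ⟪q.1, q'.1⟫ * Real.sin (2 * ρ₁) ^ 2 :=
      mul_le_mul_of_nonneg_right hfa (sq_nonneg _)
    nlinarith
  · intro X hX q hq
    have hb := b_pos hX
    rw [dist_pr_yy X hb]
    rw [dist_bp_pr] at hq
    exact near_all h1 h2 h3 h4 h5 hr2 (ve e X.1.1 X.2) X.1.1 hb q.1 q.2 fun a ha => hq ⟨a, ha⟩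

end

end Pool.Agent.H59.OP
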