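import Pool.Agent.H59.OP.Iso

/-!
MP_6a7a6f_gt: the metric of the projective plane over a composition algebra.
-/

namespace Pool.Agent.H59.OP

noncomputable section

open scoped RealInnerProductSpace

variable {O : Type} [NormedAddCommGroup O] [InnerProductSpace ℝ O] [CA O]

lemma ki_real (n : ℝ) (y x' y' : O) :
    (n * ⟪one O, x'⟫ + ⟪y, y'⟫) ^ 2 ≤
      n ^ 2 * ‖x'‖ ^ 2 + ‖y‖ ^ 2 * ‖y'‖ ^ 2 + 2 * n * ⟪y, cj x' * y'⟫ := by
  have h1 : ‖n • x' + y' * cj y‖ ^ 2 =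
      n ^ 2 * ‖x'‖ ^ 2 + ‖y‖ ^ 2 * ‖y'‖ ^ 2 + 2 * n * ⟪y, cj x' * y'⟫ := by
    rw [norm_add_sq_real, norm_smul, norm_mm, norm_cj, inner_smul_left, mul_pow, mul_pow,
      Real.norm_eq_abs, sq_abs]
    have h2 : ⟪x', y' * cj y⟫ = ⟪y, cj x' * y'⟫ := by rw [← adj_right, adj_left]
    rw [h2]
    simp only [conj_trivial]
    ring
  have h2 : ⟪n • x' + y' * cj y, one O⟫ = n * ⟪one O, x'⟫ + ⟪y, y'⟫ := by
    rw [inner_add_left, inner_smul_left, adj_right, cj_cj, one_mm, real_inner_comm,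
      real_inner_comm y y']
    rfl
  rw [← h1, ← h2]
  have h3 := abs_real_inner_le_norm (n • x' + y' * cj y) (one O)
  rw [norm_one', mul_one] at h3
  rw [← sq_abs]
  exact pow_le_pow_left₀ (abs_nonneg _) h3 2

lemma ki (x y x' y' : O) :
    (⟪x, x'⟫ + ⟪y, y'⟫) ^ 2 ≤
      ‖x‖ ^ 2 * ‖x'‖ ^ 2 + ‖y‖ ^ 2 * ‖y'‖ ^ 2 + 2 * ⟪cj x * y, cj x' * y'⟫ := by
  obtain ⟨u, hu, hux⟩ : ∃ u : O, ‖u‖ = 1 ∧ u * x = ‖x‖ • one O := by
    by_cases hx : x = 0
    · exact ⟨one O, norm_one', by rw [hx]; simp⟩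
    · have hn : ‖x‖ ≠ 0 := norm_ne_zero_iff.2 hx
      refine ⟨(‖x‖)⁻¹ • cj x, ?_, ?_⟩
      · rw [norm_smul, norm_cj, norm_inv, norm_norm, inv_mul_cancel₀ hn]
      · rw [smul_mm, cj_mm_self, smul_smul]
        congr 1
        field_simp
  have key : ∀ v w : O, cj (u * v) * (u * (w * u)) = (cj v * w) * u := fun v w => by
    rw [cj_mm, ← mouf_right, mm_cj_mm', hu, one_pow, one_smul]
  have h1 := ki_real ‖x‖ (u * (y * u)) (u * x') (u * (y' * u))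
  have e1 : ‖x‖ * ⟪one O, u * x'⟫ = ⟪x, x'⟫ := by
    have h2 := inner_mm_left u x x'
    rw [hux, hu, inner_smul_left] at h2
    simpa using h2
  have e2 : ⟪u * (y * u), u * (y' * u)⟫ = ⟪y, y'⟫ := by
    rw [inner_mm_left, inner_mm_right, hu]; ring
  have e3 : ‖u * x'‖ = ‖x'‖ := by rw [norm_mm, hu, one_mul]
  have e4 : ∀ w : O, ‖u * (w * u)‖ = ‖w‖ := fun w => by
    rw [norm_mm, norm_mm, hu, one_mul, mul_one]
  have e5 : ‖x‖ * ⟪u * (y * u), cj (u * x') * (u * (y' * u))⟫ = ⟪cj x * y, cj x' * y'⟫ := by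
    have h3 : ‖x‖ • (u * (y * u)) = cj (u * x) * (u * (y * u)) := by
      rw [hux, cj_smul, cj_one, smul_mm, one_mm]
    have h4 : ‖x‖ * ⟪u * (y * u), cj (u * x') * (u * (y' * u))⟫ =
        ⟪‖x‖ • (u * (y * u)), cj (u * x') * (u * (y' * u))⟫ := by
      rw [inner_smul_left]; rfl
    rw [h4, h3, key, key, inner_mm_right, hu]
    ring
  rw [e1, e2, e3, e4, e4, mul_assoc 2, e5] at h1
  linarith

/-- the key inequality -/
lemma key_tf (A B : P2 O) :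
    (A.a * B.a + ⟪A.x, B.x⟫ + ⟪A.y, B.y⟫) ^ 2 ≤ A.a * B.a * tf A B := by
  have h := ki A.x A.y B.x B.y
  rw [A.xy, B.xy, inner_smul_left, inner_smul_right, A.nx, B.nx, A.ny, B.ny] at h
  simp only [conj_trivial] at h
  have e : A.a * B.a * tf A B = A.a * B.a * (A.a * B.a) +
      2 * (A.a * B.a) * (⟪A.x, B.x⟫ + ⟪A.y, B.y⟫) +
      (A.a * A.b * (B.a * B.b) + A.a * A.c * (B.a * B.c) +
        2 * (A.a * (B.a * ⟪A.z, B.z⟫))) := by
    rw [tf]; ring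
  rw [e]
  nlinarith

lemma tf_comm (A B : P2 O) : tf A B = tf B A := by
  rw [tf, tf, real_inner_comm A.x, real_inner_comm A.y, real_inner_comm A.z]
  ring

lemma tf_self (A : P2 O) : tf A A = 1 := by
  have h1 := A.tr; have h2 := A.h11; have h3 := A.h22; have h4 := A.h33
  rw [tf, real_inner_self_eq_norm_sq, real_inner_self_eq_norm_sq, real_inner_self_eq_norm_sq]
  linarith

lemma tf_bp (A : P2 O) : tf A (bp O) = A.a := by
  simp [tf, bp]

lemma tf_nonneg (A B : P2 O) : 0 ≤ tf A B := by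
  obtain ⟨φ, h1, h2⟩ := trans_bp B
  rw [← h1 A B, h2, tf_bp]
  exact (φ A).nonneg.1

lemma sub_sq (A B : P2 O) :
    (A.a - B.a) ^ 2 + (A.b - B.b) ^ 2 + (A.c - B.c) ^ 2 + 2 * ‖A.x - B.x‖ ^ 2 +
      2 * ‖A.y - B.y‖ ^ 2 + 2 * ‖A.z - B.z‖ ^ 2 = 2 - 2 * tf A B := by
  have h1 := tf_self A
  have h2 := tf_self B
  rw [tf, real_inner_self_eq_norm_sq, real_inner_self_eq_norm_sq, real_inner_self_eq_norm_sq] at h1 h2
  rw [norm_sub_sq_real, norm_sub_sq_real, norm_sub_sq_real, tf]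
  linarith

lemma tf_le_one (A B : P2 O) : tf A B ≤ 1 := by
  have h := sub_sq A B
  nlinarith [sq_nonneg (A.a - B.a), sq_nonneg (A.b - B.b), sq_nonneg (A.c - B.c),
    sq_nonneg ‖A.x - B.x‖, sq_nonneg ‖A.y - B.y‖, sq_nonneg ‖A.z - B.z‖]

lemma eq_of_tf {A B : P2 O} (h : tf A B = 1) : A = B := by
  have h0 := sub_sq A B
  rw [h] at h0
  have a1 := sq_nonneg (A.a - B.a)
  have a2 := sq_nonneg (A.b - B.b)
  have a3 := sq_nonneg (A.c - B.c)
  have a4 := sq_nonneg ‖A.x - B.x‖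
  have a5 := sq_nonneg ‖A.y - B.y‖
  have a6 := sq_nonneg ‖A.z - B.z‖
  have b1 : (A.a - B.a) ^ 2 = 0 := by linarith
  have b2 : (A.b - B.b) ^ 2 = 0 := by linarith
  have b3 : (A.c - B.c) ^ 2 = 0 := by linarith
  have b4 : ‖A.x - B.x‖ ^ 2 = 0 := by linarith
  have b5 : ‖A.y - B.y‖ ^ 2 = 0 := by linarith
  have b6 : ‖A.z - B.z‖ ^ 2 = 0 := by linarith
  rw [sq_eq_zero_iff, sub_eq_zero] at b1 b2 b3
  rw [sq_eq_zero_iff, norm_eq_zero, sub_eq_zero] at b4 b5 b6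
  exact P2.ext b1 b2 b3 b4 b5 b6

lemma dd_le_pi_div_two (A B : P2 O) : dd A B ≤ Real.pi / 2 :=
  Real.arccos_le_pi_div_two.2 (Real.sqrt_nonneg _)

lemma dd_nonneg (A B : P2 O) : 0 ≤ dd A B := Real.arccos_nonneg _

lemma cos_dd (A B : P2 O) : Real.cos (dd A B) = Real.sqrt (tf A B) :=
  Real.cos_arccos (by linarith [Real.sqrt_nonneg (tf A B)]) (Real.sqrt_le_one.2 (tf_le_one A B))

lemma cos_dd_sq (A B : P2 O) : Real.cos (dd A B) ^ 2 = tf A B := by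
  rw [cos_dd, Real.sq_sqrt (tf_nonneg A B)]

lemma sin_dd_sq (A B : P2 O) : Real.sin (dd A B) ^ 2 = 1 - tf A B := by
  rw [Real.sin_sq, cos_dd_sq]

lemma sin_dd (A B : P2 O) : Real.sin (dd A B) = Real.sqrt (1 - tf A B) := by
  rw [← sin_dd_sq, Real.sqrt_sq (Real.sin_nonneg_of_nonneg_of_le_pi (dd_nonneg A B)
    (by linarith [dd_le_pi_div_two A B, Real.pi_pos]))]

lemma T_sq_le (A B : P2 O) : (⟪A.x, B.x⟫ + ⟪A.y, B.y⟫) ^ 2 ≤
    (A.a * B.a) * ((1 - A.a) * (1 - B.a)) := by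
  have h1 := abs_real_inner_le_norm A.x B.x
  have h2 := abs_real_inner_le_norm A.y B.y
  have h3 : |⟪A.x, B.x⟫ + ⟪A.y, B.y⟫| ≤ ‖A.x‖ * ‖B.x‖ + ‖A.y‖ * ‖B.y‖ :=
    (abs_add_le _ _).trans (add_le_add h1 h2)
  have h4 : (‖A.x‖ * ‖B.x‖ + ‖A.y‖ * ‖B.y‖) ^ 2 ≤
      (‖A.x‖ ^ 2 + ‖A.y‖ ^ 2) * (‖B.x‖ ^ 2 + ‖B.y‖ ^ 2) := by
    nlinarith [sq_nonneg (‖A.x‖ * ‖B.y‖ - ‖A.y‖ * ‖B.x‖)]
  have h5 : (‖A.x‖ ^ 2 + ‖A.y‖ ^ 2) * (‖B.x‖ ^ 2 + ‖B.y‖ ^ 2) =
      (A.a * B.a) * ((1 - A.a) * (1 - B.a)) := by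
    rw [A.nx, A.ny, B.nx, B.ny]
    have e1 : 1 - A.a = A.b + A.c := by linarith [A.tr]
    have e2 : 1 - B.a = B.b + B.c := by linarith [B.tr]
    rw [e1, e2]; ring
  rw [← h5]
  refine le_trans ?_ h4
  rw [← sq_abs]
  exact pow_le_pow_left₀ (abs_nonneg _) h3 2

lemma dd_tri_bp (A B : P2 O) : dd A B ≤ dd A (bp O) + dd (bp O) B := by
  by_cases hs : Real.pi / 2 ≤ dd A (bp O) + dd (bp O) B
  · exact (dd_le_pi_div_two A B).trans hs
  · push Not at hs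
    have hn := dd_nonneg A (bp O)
    have hn' := dd_nonneg (bp O) B
    have hcos : 0 < Real.cos (dd A (bp O) + dd (bp O) B) :=
      Real.cos_pos_of_mem_Ioo ⟨by linarith [Real.pi_pos], hs⟩
    have hA : tf A (bp O) = A.a := tf_bp A
    have hB : tf (bp O) B = B.a := by rw [tf_comm, tf_bp]
    obtain ⟨a0, -, -⟩ := A.nonneg
    obtain ⟨b0, -, -⟩ := B.nonneg
    have a1 : A.a ≤ 1 := by rw [← hA]; exact tf_le_one _ _
    have b1 : B.a ≤ 1 := by rw [← hB]; exact tf_le_one _ _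
    have ec : Real.cos (dd A (bp O) + dd (bp O) B) =
        Real.sqrt A.a * Real.sqrt B.a - Real.sqrt (1 - A.a) * Real.sqrt (1 - B.a) := by
      rw [Real.cos_add, cos_dd, cos_dd, sin_dd, sin_dd, hA, hB]
    set α := Real.sqrt A.a
    set β := Real.sqrt B.a
    set s := Real.sqrt (1 - A.a)
    set t := Real.sqrt (1 - B.a)
    have eα : α ^ 2 = A.a := Real.sq_sqrt a0
    have eβ : β ^ 2 = B.a := Real.sq_sqrt b0
    have es : s ^ 2 = 1 - A.a := Real.sq_sqrt (by linarith)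
    have et : t ^ 2 = 1 - B.a := Real.sq_sqrt (by linarith)
    have nα : 0 ≤ α := Real.sqrt_nonneg _
    have nβ : 0 ≤ β := Real.sqrt_nonneg _
    have ns : 0 ≤ s := Real.sqrt_nonneg _
    have nt : 0 ≤ t := Real.sqrt_nonneg _
    have hαβ : 0 < α * β := by nlinarith [mul_nonneg ns nt]
    have hT : |⟪A.x, B.x⟫ + ⟪A.y, B.y⟫| ≤ α * β * (s * t) := by
      refine abs_le_of_sq_le_sq ?_ (by positivity)
      refine (T_sq_le A B).trans (le_of_eq ?_)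
      rw [← eα, ← eβ, ← (show s ^ 2 = 1 - α ^ 2 by rw [es, eα]),
        ← (show t ^ 2 = 1 - β ^ 2 by rw [et, eβ])]
      ring
    have hT' := neg_le_of_abs_le hT
    have hk := key_tf A B
    have h1 : α * β * (α * β - s * t) ≤ A.a * B.a + ⟪A.x, B.x⟫ + ⟪A.y, B.y⟫ := by
      rw [← eα, ← eβ]; nlinarith
    have h2 : 0 ≤ α * β * (α * β - s * t) := by
      refine mul_nonneg hαβ.le ?_
      rw [← ec]; exact hcos.le
    have h3 : (α * β * (α * β - s * t)) ^ 2 ≤ (α * β) ^ 2 * tf A B := by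
      refine (pow_le_pow_left₀ h2 h1 2).trans (hk.trans (le_of_eq ?_))
      rw [← eα, ← eβ]; ring
    have h4 : (α * β - s * t) ^ 2 ≤ tf A B := by
      have h5 : (α * β) ^ 2 * (α * β - s * t) ^ 2 ≤ (α * β) ^ 2 * tf A B := by
        rw [← mul_pow]; exact h3
      exact le_of_mul_le_mul_left h5 (by positivity)
    have h6 : Real.cos (dd A (bp O) + dd (bp O) B) ≤ Real.sqrt (tf A B) := by
      rw [ec]
      exact Real.le_sqrt_of_sq_le h4
    calc dd A B = Real.arccos (Real.sqrt (tf A B)) := rfl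
      _ ≤ Real.arccos (Real.cos (dd A (bp O) + dd (bp O) B)) := Real.arccos_le_arccos h6
      _ = _ := Real.arccos_cos (by linarith) (by linarith [Real.pi_pos])

lemma dd_comm (A B : P2 O) : dd A B = dd B A := by rw [dd, dd, tf_comm]

lemma dd_tri (A B C : P2 O) : dd A C ≤ dd A B + dd B C := by
  obtain ⟨φ, h1, h2⟩ := trans_bp B
  have h : ∀ D E : P2 O, dd (φ D) (φ E) = dd D E := fun D E => by rw [dd, dd, h1]
  rw [← h A C, ← h A B, ← h B C, h2]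
  exact dd_tri_bp _ _

instance : MetricSpace (P2 O) where
  dist := dd
  dist_self A := by
    change Real.arccos (Real.sqrt (tf A A)) = 0
    rw [tf_self, Real.sqrt_one, Real.arccos_one]
  dist_comm := dd_comm
  dist_triangle := dd_tri
  eq_of_dist_eq_zero := by
    intro A B h
    change Real.arccos (Real.sqrt (tf A B)) = 0 at h
    rw [Real.arccos_eq_zero] at h
    refine eq_of_tf (le_antisymm (tf_le_one A B) ?_)
    by_contra hlt
    push Not at hlt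
    have : Real.sqrt (tf A B) < 1 := by
      rw [Real.sqrt_lt' one_pos]; simpa using hlt
    linarith

lemma dist_def (A B : P2 O) : dist A B = dd A B := rfl

end

end Pool.Agent.H59.OP
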