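import Pool.Agent.H59.OP.Top

/-!
MP_6a7a6f_gt: the ring of points at a given distance from the base point over a point of the
projective plane over a composition algebra.
-/

namespace Pool.Agent.H59.OP

noncomputable section

open scoped RealInnerProductSpace
open Filter Topology

variable {O : Type} [NormedAddCommGroup O] [InnerProductSpace ℝ O] [CA O]

lemma one_sub_a (A : P2 O) : 1 - A.a = A.b + A.c := by linarith [A.tr]

lemma one_sub_a_pos {A : P2 O} (h : 0 < A.b) : 0 < 1 - A.a := by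
  rw [one_sub_a]; linarith [A.nonneg.2.2]

/-- the coefficient of the first component -/
def mu (A : P2 O) : ℝ := Real.sqrt A.b / Real.sqrt (1 - A.a)

/-- the coefficient of the second component -/
def ka (A : P2 O) : ℝ := (Real.sqrt A.b * Real.sqrt (1 - A.a))⁻¹

/-- the vector of the linear form -/
def la (A : P2 O) : O := (Real.sqrt (1 - A.a) / Real.sqrt A.b) • A.x

lemma mu_sq {A : P2 O} (h : 0 < A.b) : mu A ^ 2 = A.b / (1 - A.a) := by
  rw [mu, div_pow, Real.sq_sqrt h.le, Real.sq_sqrt (one_sub_a_pos h).le]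

lemma ka_sq {A : P2 O} (h : 0 < A.b) : ka A ^ 2 = (A.b * (1 - A.a))⁻¹ := by
  rw [ka, inv_pow, mul_pow, Real.sq_sqrt h.le, Real.sq_sqrt (one_sub_a_pos h).le]

lemma mu_pos {A : P2 O} (h : 0 < A.b) : 0 < mu A :=
  div_pos (Real.sqrt_pos.2 h) (Real.sqrt_pos.2 (one_sub_a_pos h))

lemma ka_pos {A : P2 O} (h : 0 < A.b) : 0 < ka A :=
  inv_pos.2 (mul_pos (Real.sqrt_pos.2 h) (Real.sqrt_pos.2 (one_sub_a_pos h)))

lemma ka_b {A : P2 O} (h : 0 < A.b) : ka A * A.b = mu A := by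
  have h1 := Real.sqrt_pos.2 h
  have h2 := Real.sqrt_pos.2 (one_sub_a_pos h)
  rw [ka, mu]
  nth_rewrite 2 [← Real.sq_sqrt h.le]
  field_simp

lemma mu_ka {A : P2 O} (h : 0 < A.b) : mu A * ka A = (1 - A.a)⁻¹ := by
  have h1 := Real.sqrt_pos.2 h
  have h2 := Real.sqrt_pos.2 (one_sub_a_pos h)
  rw [ka, mu, ← Real.sq_sqrt (one_sub_a_pos h).le]
  simp only [Real.sqrt_sq h2.le]
  field_simp

lemma la_eq {A : P2 O} (h : 0 < A.b) : la A = (mu A + ka A * A.c) • A.x := by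
  have h1 := Real.sqrt_pos.2 h
  have h2 := Real.sqrt_pos.2 (one_sub_a_pos h)
  rw [la]
  congr 1
  rw [← ka_b h, ← mul_add, ← one_sub_a, ka]
  nth_rewrite 3 [← Real.sq_sqrt (one_sub_a_pos h).le]
  field_simp

lemma norm_la {A : P2 O} (h : 0 < A.b) : ‖la A‖ ^ 2 = A.a * (1 - A.a) := by
  rw [la, norm_smul, mul_pow, Real.norm_eq_abs, sq_abs, div_pow, Real.sq_sqrt h.le,
    Real.sq_sqrt (one_sub_a_pos h).le, A.nx]
  field_simp

/-- the point of the ring of radius `ρ` over `A` with the parameter `q` -/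
def rg (ρ : ℝ) (A : P2 O) (h : 0 < A.b) (q : O) (hq : ‖q‖ = 1) : P2 O :=
  mkP (Real.cos ρ ^ 2) (Real.sin ρ ^ 2 * (A.b / (1 - A.a))) (Real.sin ρ ^ 2 * (A.c / (1 - A.a)))
    ((Real.cos ρ * Real.sin ρ * mu A) • q) ((Real.cos ρ * Real.sin ρ * ka A) • (q * A.z))
    ((Real.sin ρ ^ 2 / (1 - A.a)) • A.z)
    (by
      have h1 := one_sub_a_pos h
      have h2 := one_sub_a A
      have h3 := Real.cos_sq_add_sin_sq ρ
      rw [add_assoc, ← mul_add, ← add_div, ← h2, div_self h1.ne', mul_one]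
      exact h3)
    (by
      rw [norm_smul, mul_pow, Real.norm_eq_abs, sq_abs, hq, mul_pow, mul_pow, mu_sq h]
      ring)
    (by
      have h1 := one_sub_a_pos h
      rw [norm_smul, mul_pow, Real.norm_eq_abs, sq_abs, norm_mm, hq, one_mul, mul_pow, mul_pow,
        ka_sq h, A.nz]
      field_simp)
    (by
      have h1 := one_sub_a_pos h
      rw [norm_smul, mul_pow, Real.norm_eq_abs, sq_abs, A.nz]
      field_simp)
    (by
      have h1 := one_sub_a_pos h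
      rw [cj_smul, smul_mm, mm_smul, mm_mm_cj, smul_smul, smul_smul, smul_smul, A.nz, ← ka_b h]
      congr 1
      field_simp)
    (by
      rw [smul_mm, mm_smul, smul_smul, smul_smul, ← ka_b h]
      congr 1
      field_simp)
    (by
      rw [cj_smul, smul_mm, mm_smul, cj_mm_mm, hq, one_pow, one_smul, smul_smul, smul_smul]
      congr 1
      have h1 := mu_ka h
      calc Real.cos ρ * Real.sin ρ * mu A * (Real.cos ρ * Real.sin ρ * ka A) =
          Real.cos ρ ^ 2 * Real.sin ρ ^ 2 * (mu A * ka A) := by ring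
        _ = _ := by rw [h1]; ring)

lemma tf_rg_bp (ρ : ℝ) (A : P2 O) (h : 0 < A.b) (q : O) (hq : ‖q‖ = 1) :
    tf (rg ρ A h q hq) (bp O) = Real.cos ρ ^ 2 := by
  rw [tf_bp]; rfl

lemma tf_rg_rg (ρ : ℝ) (A : P2 O) (h : 0 < A.b) (q q' : O) (hq : ‖q‖ = 1) (hq' : ‖q'‖ = 1) :
    tf (rg ρ A h q hq) (rg ρ A h q' hq') =
      Real.cos ρ ^ 4 + 2 * Real.cos ρ ^ 2 * Real.sin ρ ^ 2 * ⟪q, q'⟫ + Real.sin ρ ^ 4 := by
  have h1 := one_sub_a_pos h
  have h2 := one_sub_a A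
  simp only [tf, rg, mkP, real_inner_smul_left, real_inner_smul_right, inner_mm_right,
    real_inner_self_eq_norm_sq, A.nz]
  have e1 : mu A * (mu A * ⟪q, q'⟫) = A.b / (1 - A.a) * ⟪q, q'⟫ := by
    rw [← mu_sq h]; ring
  have e2 : ka A * (ka A * (⟪q, q'⟫ * (A.b * A.c))) = A.c / (1 - A.a) * ⟪q, q'⟫ := by
    have : ka A * (ka A * (⟪q, q'⟫ * (A.b * A.c))) = ka A ^ 2 * (⟪q, q'⟫ * (A.b * A.c)) := by ring
    rw [this, ka_sq h]
    field_simp
  have e3 : A.b / (1 - A.a) + A.c / (1 - A.a) = 1 := by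
    rw [← add_div, ← h2, div_self h1.ne']
  set β := A.b / (1 - A.a) with hβ
  set γ := A.c / (1 - A.a) with hγ
  have e4 : (1 - A.a)⁻¹ * ((1 - A.a)⁻¹ * (A.b * A.c)) = β * γ := by
    rw [hβ, hγ]; field_simp
  have e5 : β = 1 - γ := by linarith
  set C := Real.cos ρ
  set S := Real.sin ρ
  have g1 : 2 * (C * S * mu A * (C * S * mu A * ⟪q, q'⟫)) = 2 * C ^ 2 * S ^ 2 * (β * ⟪q, q'⟫) := by
    rw [← e1]; ring
  have g2 : 2 * (C * S * ka A * (C * S * ka A * (⟪q, q'⟫ * (A.b * A.c)))) =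
      2 * C ^ 2 * S ^ 2 * (γ * ⟪q, q'⟫) := by
    rw [← e2]; ring
  have g3 : 2 * ‖(S ^ 2 / (1 - A.a)) • A.z‖ ^ 2 = 2 * S ^ 4 * (β * γ) := by
    rw [← e4, norm_smul, mul_pow, Real.norm_eq_abs, sq_abs, A.nz]; ring
  rw [g1, g2, g3, e5]
  ring

lemma cos_two_dd (A B : P2 O) : Real.cos (2 * dist A B) = 2 * tf A B - 1 := by
  rw [Real.cos_two_mul, dist_def, cos_dd_sq]

lemma cos_two_dist_rg (ρ : ℝ) (A : P2 O) (h : 0 < A.b) (q q' : O) (hq : ‖q‖ = 1)
    (hq' : ‖q'‖ = 1) : Real.cos (2 * dist (rg ρ A h q hq) (rg ρ A h q' hq')) =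
      Real.cos (2 * ρ) ^ 2 + Real.sin (2 * ρ) ^ 2 * ⟪q, q'⟫ := by
  rw [cos_two_dd, tf_rg_rg, Real.cos_two_mul, Real.sin_two_mul]
  have h1 := Real.cos_sq_add_sin_sq ρ
  have h2 : Real.sin ρ ^ 2 = 1 - Real.cos ρ ^ 2 := by linarith
  have h3 : Real.sin ρ ^ 4 = (1 - Real.cos ρ ^ 2) ^ 2 := by rw [← h2]; ring
  rw [h3]
  ring

lemma dist_rg_bp {ρ : ℝ} (h0 : 0 ≤ ρ) (h1 : ρ ≤ Real.pi / 2) (A : P2 O) (h : 0 < A.b) (q : O)
    (hq : ‖q‖ = 1) : dist (bp O) (rg ρ A h q hq) = ρ := by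
  rw [dist_comm, dist_def, dd, tf_rg_bp, Real.sqrt_sq (Real.cos_nonneg_of_mem_Icc
    ⟨by linarith [Real.pi_pos], h1⟩), Real.arccos_cos h0 (by linarith [Real.pi_pos])]

lemma tf_rg (ρ : ℝ) (A : P2 O) (h : 0 < A.b) (q : O) (hq : ‖q‖ = 1) :
    tf A (rg ρ A h q hq) = A.a * Real.cos ρ ^ 2 + (1 - A.a) * Real.sin ρ ^ 2 +
      2 * Real.cos ρ * Real.sin ρ * ⟪q, la A⟫ := by
  have h1 := one_sub_a_pos h
  have h2 := one_sub_a A
  have e1 : ⟪A.y, q * A.z⟫ = A.c * ⟪q, A.x⟫ := by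
    rw [real_inner_comm (q * A.z), adj_right, A.yz, real_inner_smul_right]
  simp only [tf, rg, mkP, real_inner_smul_right, e1, real_inner_self_eq_norm_sq, A.nz]
  rw [la_eq h, real_inner_smul_right, real_inner_comm q A.x]
  set C := Real.cos ρ
  set S := Real.sin ρ
  have g1 : A.b * (S ^ 2 * (A.b / (1 - A.a))) + A.c * (S ^ 2 * (A.c / (1 - A.a))) +
      2 * (S ^ 2 / (1 - A.a) * (A.b * A.c)) = (1 - A.a) * S ^ 2 := by
    field_simp
    rw [h2]
    ring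
  linear_combination g1

omit [CA O] in
/-- a linear form takes its norm as value -/
lemma la_max (l : O) (hone : ∃ q : O, ‖q‖ = 1) : ∃ q : O, ‖q‖ = 1 ∧ ⟪q, l⟫ = ‖l‖ := by
  by_cases hl : l = 0
  · obtain ⟨q, hq⟩ := hone
    exact ⟨q, hq, by rw [hl]; simp⟩
  · have hn : ‖l‖ ≠ 0 := norm_ne_zero_iff.2 hl
    refine ⟨(‖l‖)⁻¹ • l, by rw [norm_smul, norm_inv, norm_norm, inv_mul_cancel₀ hn], ?_⟩
    rw [real_inner_smul_left, real_inner_self_eq_norm_sq]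
    field_simp

end

end Pool.Agent.H59.OP
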